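import Pool.Agent.MP_57f271_lc.H62.Mah

/-! Resultants of two combinations of `N`-th powers of items, at one place. -/

open Polynomial

namespace Pool.Agent.MP_57f271_lc.H62

variable {K : Type*} [NormedField K] {κ : ℝ}

/-- A combination of the first `n` polynomials. -/
noncomputable def sec (v : ℕ → K[X]) (n : ℕ) (α : ℕ → K) : K[X] :=
  ∑ i ∈ Finset.range n, C (α i) * v i

/-- All resultants of two combinations with coefficients in the unit ball are at most `s`. -/
def Rb (v : ℕ → K[X]) (n E : ℕ) (s : ℝ) : Prop :=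
  ∀ α β : ℕ → K, (∀ i, ‖α i‖ ≤ 1) → (∀ i, ‖β i‖ ≤ 1) →
    ‖resultant (sec v n α) (sec v n β) E E‖ ≤ s

theorem eval_sec (v : ℕ → K[X]) (n : ℕ) (α : ℕ → K) (z : K) :
    (sec v n α).eval z = ∑ i ∈ Finset.range n, α i * (v i).eval z := by
  simp [sec, eval_finsetSum]

theorem coeff_sec (v : ℕ → K[X]) (n : ℕ) (α : ℕ → K) (k : ℕ) :
    (sec v n α).coeff k = ∑ i ∈ Finset.range n, α i * (v i).coeff k := by
  simp [sec]

theorem natDegree_sec_le {v : ℕ → K[X]} {n E : ℕ} (h : ∀ i < n, (v i).natDegree ≤ E)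
    (α : ℕ → K) : (sec v n α).natDegree ≤ E :=
  natDegree_sum_le_of_forall_le _ _ fun i hi =>
    (natDegree_C_mul_le _ _).trans (h i (Finset.mem_range.1 hi))

theorem norm_resultant_comm (a b : K[X]) (m n : ℕ) :
    ‖resultant a b m n‖ = ‖resultant b a n m‖ := by
  rw [resultant_comm, norm_mul, norm_pow, norm_neg, norm_one, one_pow, one_mul]

theorem Rb.scale {v : ℕ → K[X]} {n E : ℕ} {s : ℝ} (h : Rb v n E s) {x : K} (hx : x ≠ 0)
    {α β : ℕ → K} (hα : ∀ i, ‖α i‖ ≤ 1) (hβ : ∀ i, ‖β i‖ ≤ ‖x‖) :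
    ‖resultant (sec v n α) (sec v n β) E E‖ ≤ ‖x‖ ^ E * s := by
  have h1 : sec v n β = C x * sec v n fun i => β i / x := by
    unfold sec
    rw [Finset.mul_sum]
    refine Finset.sum_congr rfl fun i _ => ?_
    rw [← mul_assoc, ← C_mul, mul_div_cancel₀ _ hx]
  rw [h1, resultant_C_mul_right, norm_mul, norm_pow]
  refine mul_le_mul_of_nonneg_left (h _ _ hα fun i => ?_) (by positivity)
  rw [norm_div, div_le_one (norm_pos_iff.2 hx)]
  exact hβ i

variable [IsAlgClosed K]

theorem norm_resultant_eq (a c : K[X]) {E : ℕ} (ha : a.natDegree ≤ E) :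
    ‖resultant a c E c.natDegree‖ =
      ‖c.leadingCoeff‖ ^ E * (c.roots.map fun z => ‖a.eval z‖).prod := by
  rw [norm_resultant_comm, resultant_eq_prod_eval c a E ha (IsAlgClosed.splits c), norm_mul,
    norm_pow]
  congr 1
  have := map_multiset_prod (normHom (α := K)) (c.roots.map a.eval)
  simpa [Multiset.map_map] using this

theorem Good.exists_sec (hK : Good K κ) {v : ℕ → K[X]} {n E : ℕ}
    (hv : ∀ i < n, (v i).natDegree ≤ E) (c : K[X]) (k : ℕ) :
    ∃ α : ℕ → K, (∀ i, ‖α i‖ ≤ 1) ∧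
      W n (fun i => (v i).coeff E) ^ k *
        (‖c.leadingCoeff‖ ^ E * (c.roots.map fun z => W n fun i => (v i).eval z).prod) ≤
        ‖resultant (sec v n α) c E (c.natDegree + k)‖ := by
  obtain ⟨α, hα, h⟩ := hK.pick_vec n
    (Multiset.replicate k (fun i => (v i).coeff E) + c.roots.map fun z i => (v i).eval z)
  refine ⟨α, hα, ?_⟩
  rw [resultant_add_right_deg _ _ _ _ _ le_rfl, norm_mul, norm_pow,
    norm_resultant_eq _ _ (natDegree_sec_le hv α), coeff_sec]
  simp only [eval_sec]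
  simp only [Multiset.map_add, Multiset.prod_add, Multiset.map_replicate, Multiset.prod_replicate,
    Multiset.map_map, Function.comp_def] at h
  have := mul_le_mul_of_nonneg_left h (pow_nonneg (norm_nonneg c.leadingCoeff) E)
  linarith

theorem Good.exists_shift (hK : Good K κ) (a c e : K[X]) (E' E j : ℕ) (he : e.coeff E ≠ 0) :
    resultant a c E' E = 0 ∨ ∃ ζ : K, ‖ζ‖ ≤ 1 ∧ (c + C ζ * e).coeff E ≠ 0 ∧
      ‖resultant a c E' E‖ * ‖e.coeff E‖ ^ j ≤
        κ * (‖resultant a (c + C ζ * e) E' E‖ * ‖(c + C ζ * e).coeff E‖ ^ j) := by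
  set g : K[X] := resultant (a.map C) (c.map C + C X * e.map C) E' E with hg
  have hev : ∀ ζ : K, g.eval ζ = resultant a (c + C ζ * e) E' E := by
    intro ζ
    have h := resultant_map_map (a.map C) (c.map C + C X * e.map C) E' E (evalRingHom ζ)
    have h1 : (evalRingHom ζ).comp (C : K →+* K[X]) = RingHom.id K := by ext; simp
    rw [Polynomial.map_add, Polynomial.map_mul, map_map, map_map, map_map, h1, map_id, map_id,
      map_id, map_C, coe_evalRingHom, eval_X] at h
    exact h.symm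
  obtain ⟨ζ, hζ, h⟩ := hK.exists_eval (g * (C (c.coeff E) + C (e.coeff E) * X) ^ (j + 1))
  have h0 := eval_zero_le_Mah g
  rw [hev, C_0, zero_mul, add_zero] at h0
  have hc : (c + C ζ * e).coeff E = c.coeff E + e.coeff E * ζ := by simp [mul_comm]
  rw [Mah_mul, Mah_pow, Mah_linear, eval_mul, eval_pow, norm_mul, norm_pow, hev] at h
  simp only [eval_add, eval_mul, eval_C, eval_X] at h
  rw [← hc] at h
  set M := max ‖c.coeff E‖ ‖e.coeff E‖ with hM
  have hMe : ‖e.coeff E‖ ≤ M := le_max_right _ _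
  have hM0 : 0 < M := (norm_pos_iff.2 he).trans_le hMe
  by_cases h1 : (c + C ζ * e).coeff E = 0
  · left
    rw [h1, norm_zero, zero_pow (by omega), mul_zero] at h
    have h2 : Mah g ≤ 0 := by
      by_contra h3
      exact absurd h (not_le.2 (mul_pos (not_le.1 h3) (by positivity)))
    exact norm_le_zero_iff.1 (h0.trans h2)
  right
  refine ⟨ζ, hζ, h1, ?_⟩
  have h2 : ‖(c + C ζ * e).coeff E‖ ≤ κ * M := by
    rw [hc]
    refine hK.norm_add_le (le_max_left _ _) ?_
    rw [norm_mul]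
    exact (mul_le_of_le_one_right (norm_nonneg _) hζ).trans hMe
  refine le_of_mul_le_mul_right ?_ hM0
  calc _ ≤ Mah g * M ^ j * M := by
        gcongr
        exact Mah_nonneg g
    _ = Mah g * M ^ (j + 1) := by ring
    _ ≤ _ := h
    _ = ‖resultant a (c + C ζ * e) E' E‖ * ‖(c + C ζ * e).coeff E‖ ^ j *
        ‖(c + C ζ * e).coeff E‖ := by ring
    _ ≤ ‖resultant a (c + C ζ * e) E' E‖ * ‖(c + C ζ * e).coeff E‖ ^ j * (κ * M) := by gcongr
    _ = _ := by ring

/-- One step of the program at one place. -/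
theorem Good.step (hK : Good K κ) {x : K} (hx : ‖x‖ = κ) {v : ℕ → K[X]} {n E k j r i₀ : ℕ}
    {s θ : ℝ} (hs : Rb v n E s) (hv : ∀ i < n, (v i).natDegree ≤ E) (hn : 0 < n) (h0 : v 0 = 1)
    (hi₀ : i₀ < n) (he : (v i₀).coeff E ≠ 0) (hw : (v n).natDegree ≤ E + k)
    (hr : E + k + j = r * E) (hr1 : 1 ≤ r) (hθ : 1 ≤ θ)
    (hz : ∀ z : K, ‖(v n).eval z‖ ≤ θ * W n (fun i => (v i).eval z) ^ r) :
    Rb v (n + 1) (E + k) (κ * ‖(v n).coeff (E + k)‖ ^ k * (κ ^ (n + 1) * θ) ^ E *
      ((κ ^ 2) ^ E * s) ^ r / ‖(v i₀).coeff E‖ ^ j) := by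
  have hκ := hK.one_le
  have hs0 : 0 ≤ s := (norm_nonneg _).trans (hs (fun _ => 0) (fun _ => 0) (by simp) (by simp))
  have he' : 0 < ‖(v i₀).coeff E‖ := norm_pos_iff.2 he
  have hv' : ∀ i < n + 1, (v i).natDegree ≤ E + k := fun i hi => by
    rcases (Nat.lt_succ_iff.1 hi).lt_or_eq with h | rfl
    · exact (hv i h).trans (by omega)
    · exact hw
  intro α β hα hβ
  wlog hαβ : ‖β n‖ ≤ ‖α n‖ generalizing α β
  · rw [norm_resultant_comm]; exact this β α hβ hα (not_le.1 hαβ).le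
  set a := sec v (n + 1) α with ha
  have hda : a.natDegree ≤ E + k := natDegree_sec_le hv' α
  set γ : ℕ → K := fun i => β i + -(β n / α n) * α i with hγ
  have hq : ‖β n / α n‖ ≤ 1 := by
    rw [norm_div]; exact div_le_one_of_le₀ hαβ (norm_nonneg _)
  have hγ1 : ∀ i, ‖γ i‖ ≤ κ := fun i => by
    have := hK.norm_add_le (hβ i) (b := -(β n / α n) * α i) (by
      rw [norm_mul, norm_neg]; exact mul_le_one₀ hq (norm_nonneg _) (hα i))
    rwa [mul_one] at this
  have hγn : γ n = 0 := by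
    by_cases h : α n = 0
    · have : β n = 0 := by simpa [h] using hαβ
      simp [hγ, h, this]
    · simp only [hγ]; field_simp; ring
  have e1 : sec v n γ = sec v (n + 1) β + a * C (-(β n / α n)) := by
    have : sec v n γ = sec v (n + 1) γ := by simp [sec, Finset.sum_range_succ, hγn]
    rw [this, ha]
    unfold sec
    rw [Finset.sum_mul, ← Finset.sum_add_distrib]
    refine Finset.sum_congr rfl fun i _ => ?_
    simp only [hγ, C_add, C_mul]; ring
  have e2 : resultant a (sec v (n + 1) β) (E + k) (E + k) =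
      a.coeff (E + k) ^ k * resultant a (sec v n γ) (E + k) E := by
    rw [← resultant_add_right_deg _ _ _ _ _ (natDegree_sec_le hv γ), e1,
      resultant_add_mul_right _ _ _ _ _ (by simp) hda]
  have e3 : ‖a.coeff (E + k)‖ ^ k ≤ ‖(v n).coeff (E + k)‖ ^ k := by
    rcases Nat.eq_zero_or_pos k with h | h
    · simp [h]
    refine pow_le_pow_left₀ (norm_nonneg _) ?_ k
    rw [ha, coeff_sec, Finset.sum_range_succ, Finset.sum_eq_zero fun i hi => by
      rw [coeff_eq_zero_of_natDegree_lt ((hv i (Finset.mem_range.1 hi)).trans_lt (by omega)),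
        mul_zero], zero_add, norm_mul]
    exact mul_le_of_le_one_left (norm_nonneg _) (hα n)
  rw [e2, norm_mul, norm_pow, le_div_iff₀ (by positivity)]
  rcases hK.exists_shift a (sec v n γ) (v i₀) (E + k) E j he with h | ⟨ζ, hζ, hc0, h⟩
  · rw [h, norm_zero, mul_zero, zero_mul]; positivity
  set γ' : ℕ → K := fun i => γ i + if i = i₀ then ζ else 0 with hγ'
  have e4 : sec v n γ + C ζ * v i₀ = sec v n γ' := by
    unfold sec
    simp only [hγ', C_add, add_mul, Finset.sum_add_distrib]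
    congr 1
    rw [Finset.sum_eq_single_of_mem i₀ (Finset.mem_range.2 hi₀) fun i _ hi => by simp [hi]]
    simp
  rw [e4] at hc0 h
  set c := sec v n γ' with hc
  have hdc : c.natDegree = E :=
    le_antisymm (natDegree_sec_le hv γ') (le_natDegree_of_ne_zero hc0)
  have hlc : c.coeff E = c.leadingCoeff := by rw [leadingCoeff, hdc]
  have hγ2 : ∀ i, ‖γ' i‖ ≤ ‖x ^ 2‖ := fun i => by
    rw [norm_pow, hx, sq]
    refine hK.norm_add_le (hγ1 i) ?_
    split_ifs
    · exact hζ.trans hκ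
    · simpa using zero_le_one.trans hκ
  have hx0 : x ^ 2 ≠ 0 := pow_ne_zero _ (norm_pos_iff.1 (by rw [hx]; linarith))
  obtain ⟨α₂, hα₂, h2⟩ := hK.exists_sec hv c 0
  rw [pow_zero, one_mul, add_zero, hdc] at h2
  have h3 := h2.trans (hs.scale hx0 hα₂ hγ2)
  rw [norm_pow, hx] at h3
  have h4 := norm_resultant_eq a c hda
  rw [hdc] at h4
  have h5 : (c.roots.map fun z => ‖a.eval z‖).prod ≤ (κ ^ (n + 1) * θ) ^ E *
      (c.roots.map fun z => W n fun i => (v i).eval z).prod ^ r := by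
    rw [← hdc, ← IsAlgClosed.card_roots_eq_natDegree, ← Multiset.prod_replicate,
      ← Multiset.map_const', ← Multiset.prod_map_pow, ← Multiset.prod_map_mul]
    refine Multiset.prod_map_le_prod_map₀ _ _ (fun _ _ => norm_nonneg _) fun z _ => ?_
    have w1 : 1 ≤ W n fun i => (v i).eval z := by
      simpa [h0] using le_W hn fun i => (v i).eval z
    rw [ha, eval_sec, mul_assoc]
    refine hK.norm_sum_le _ (by positivity) _ fun i hi => ?_
    rw [norm_mul]
    refine (mul_le_of_le_one_left (norm_nonneg _) (hα i)).trans ?_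
    rcases (Nat.lt_succ_iff.1 hi).lt_or_eq with h | rfl
    · refine (le_W h fun i => (v i).eval z).trans ?_
      exact (le_self_pow₀ w1 (by omega)).trans (le_mul_of_one_le_left (by positivity) hθ)
    · exact hz z
  have p0 : 0 ≤ (c.roots.map fun z => W n fun i => (v i).eval z).prod :=
    Multiset.prod_map_nonneg fun _ _ => W_nonneg _ _
  set A := (c.roots.map fun z => W n fun i => (v i).eval z).prod
  have h6 : ‖resultant a c (E + k) E‖ * ‖c.coeff E‖ ^ j ≤
      (κ ^ (n + 1) * θ) ^ E * ((κ ^ 2) ^ E * s) ^ r := by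
    rw [h4, hlc]
    calc _ ≤ ‖c.leadingCoeff‖ ^ (E + k) * ((κ ^ (n + 1) * θ) ^ E * A ^ r) *
          ‖c.leadingCoeff‖ ^ j := by gcongr
      _ = (κ ^ (n + 1) * θ) ^ E * (‖c.leadingCoeff‖ ^ (E + k + j) * A ^ r) := by ring
      _ = (κ ^ (n + 1) * θ) ^ E * (‖c.leadingCoeff‖ ^ E * A) ^ r := by
          rw [hr, mul_pow (‖c.leadingCoeff‖ ^ E), ← pow_mul, mul_comm r E]
      _ ≤ _ := by gcongr
  calc _ = ‖a.coeff (E + k)‖ ^ k * (‖resultant a (sec v n γ) (E + k) E‖ *
        ‖(v i₀).coeff E‖ ^ j) := by ring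
    _ ≤ ‖(v n).coeff (E + k)‖ ^ k * (κ * ((κ ^ (n + 1) * θ) ^ E * ((κ ^ 2) ^ E * s) ^ r)) := by
        refine mul_le_mul e3 (h.trans ?_) (by positivity) (by positivity)
        gcongr
    _ = _ := by ring

end Pool.Agent.MP_57f271_lc.H62
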