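import Mathlib

/-! An integer polynomial of degree `d` is large at all but `d` integers. -/

open Polynomial Finset

namespace Pool.Agent.MP_57f271_lc.H62

theorem factorial_card_le_prod (S : Finset ℕ) (h0 : 0 ∉ S) : S.card.factorial ≤ ∏ a ∈ S, a := by
  induction S using Finset.induction_on_max with
  | empty => simp
  | insert a S ha ih =>
    have haS : a ∉ S := fun h => lt_irrefl _ (ha a h)
    rw [card_insert_of_notMem haS, prod_insert haS, Nat.factorial_succ]
    have h0S : 0 ∉ S := fun h => h0 (mem_insert_of_mem h)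
    have ha0 : a ≠ 0 := fun h => h0 (by simp [h])
    refine Nat.mul_le_mul ?_ (ih h0S)
    have : S ⊆ Ioo 0 a := fun x hx => mem_Ioo.2
      ⟨Nat.pos_of_ne_zero fun h => h0S (h ▸ hx), ha x hx⟩
    have := card_le_card this
    rw [Nat.card_Ioo] at this
    omega

theorem factorial_card_le_prod_int (S : Finset ℤ) (x : ℤ)
    (h : (∀ a ∈ S, a < x) ∨ ∀ a ∈ S, x < a) :
    S.card.factorial ≤ ∏ a ∈ S, (x - a).natAbs := by
  have hinj : Set.InjOn (fun a : ℤ => (x - a).natAbs) S := by
    intro a ha b hb hab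
    rcases h with h | h
    · have := h a ha; have := h b hb; simp only at hab; omega
    · have := h a ha; have := h b hb; simp only at hab; omega
  have := factorial_card_le_prod (S.image fun a : ℤ => (x - a).natAbs) (by
    intro h0
    obtain ⟨a, ha, h1⟩ := mem_image.1 h0
    rcases h with h | h
    · have := h a ha; omega
    · have := h a ha; omega)
  rwa [card_image_of_injOn hinj, prod_image hinj] at this

theorem factorial_le_prod_dist (S : Finset ℤ) (x : ℤ) (hx : x ∉ S) :
    S.card.factorial ≤ 2 ^ S.card * ∏ a ∈ S, (x - a).natAbs := by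
  classical
  have h1 := factorial_card_le_prod_int (S.filter (· < x)) x
    (Or.inl fun a ha => (mem_filter.1 ha).2)
  have h2 := factorial_card_le_prod_int (S.filter fun a => ¬ a < x) x
    (Or.inr fun a ha => lt_of_le_of_ne (not_lt.1 (mem_filter.1 ha).2)
      fun h => hx (h ▸ (mem_filter.1 ha).1))
  have h3 := card_filter_add_card_filter_not (s := S) (· < x)
  rw [← prod_filter_mul_prod_filter_not S (· < x)]
  set a := (S.filter (· < x)).card
  set b := (S.filter fun a => ¬ a < x).card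
  rw [← h3, ← Nat.add_choose_mul_factorial_mul_factorial, mul_assoc]
  exact Nat.mul_le_mul (Nat.choose_le_two_pow _ _) (Nat.mul_le_mul h1 h2)

theorem succ_mul_three_pow_le (d : ℕ) (hd : 8 ≤ d) : (d + 1) * 3 ^ d ≤ 4 ^ d := by
  induction d, hd using Nat.le_induction with
  | base => norm_num
  | succ d hd ih =>
    have : 0 < 3 ^ d := by positivity
    rw [pow_succ, pow_succ]; nlinarith

theorem pow_le_factorial (d : ℕ) (hd : 8 ≤ d) :
    ((d : ℝ) + 1) * 2 ^ d * ((d : ℝ) / 8) ^ d ≤ d.factorial := by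
  have h1 := Real.pow_div_factorial_le_exp (d : ℝ) (by positivity) d
  have h2 : Real.exp d ≤ 3 ^ d := by
    rw [← Real.exp_one_pow]
    exact pow_le_pow_left₀ (by positivity) (by linarith [Real.exp_one_lt_d9]) d
  have h3 : ((d : ℝ) + 1) * 3 ^ d ≤ 4 ^ d := by exact_mod_cast succ_mul_three_pow_le d hd
  have h4 : (0 : ℝ) < d.factorial := by positivity
  rw [div_le_iff₀ h4] at h1
  have h5 : (2 : ℝ) ^ d * ((d : ℝ) / 8) ^ d = (d : ℝ) ^ d / 4 ^ d := by
    rw [← mul_pow, ← div_pow]; congr 1; ring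
  rw [mul_assoc, h5, ← mul_div_assoc, div_le_iff₀ (by positivity)]
  calc _ ≤ ((d : ℝ) + 1) * (3 ^ d * d.factorial) :=
        mul_le_mul_of_nonneg_left (h1.trans (mul_le_mul_of_nonneg_right h2 h4.le)) (by positivity)
    _ = ((d : ℝ) + 1) * 3 ^ d * d.factorial := by ring
    _ ≤ 4 ^ d * d.factorial := mul_le_mul_of_nonneg_right h3 h4.le
    _ = _ := by ring

/-- Among `d + 1` integers there is one where `|y| ≥ (d/8)^d`. -/
theorem exists_large (y : ℤ[X]) (hd : 8 ≤ y.natDegree) (S : Finset ℤ)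
    (hS : S.card = y.natDegree + 1) :
    ∃ x ∈ S, ((y.natDegree : ℝ) / 8) ^ y.natDegree ≤ |((y.eval x : ℤ) : ℝ)| := by
  classical
  by_contra hcon
  push Not at hcon
  set d := y.natDegree with hdd
  have hy : y ≠ 0 := fun h => by simp [h] at hdd; omega
  have hinj : Function.Injective (Int.castRingHom ℝ) := RingHom.injective_int _
  have hdeg : (y.map (Int.castRingHom ℝ)).degree = d := by
    rw [degree_map_eq_of_injective hinj, degree_eq_natDegree hy]
  have h := Lagrange.leadingCoeff_eq_sum (s := S) (v := fun x : ℤ => (x : ℝ))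
    (P := y.map (Int.castRingHom ℝ)) (Int.cast_injective.injOn)
    (by rw [hdeg, hS]; norm_cast)
  rw [leadingCoeff_map_of_injective hinj] at h
  have h1 : (1 : ℝ) ≤ |Int.castRingHom ℝ y.leadingCoeff| := by
    have := Int.one_le_abs (leadingCoeff_ne_zero.2 hy)
    simp only [eq_intCast]
    exact_mod_cast this
  have hf : (0 : ℝ) < d.factorial := by positivity
  have h2 : ∀ x ∈ S, |(y.map (Int.castRingHom ℝ)).eval (x : ℝ) /
      ∏ j ∈ S.erase x, ((x : ℝ) - j)| < ((d : ℝ) / 8) ^ d * (2 ^ d / d.factorial) := by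
    intro x hx
    have a1 := factorial_le_prod_dist (S.erase x) x (notMem_erase _ _)
    rw [card_erase_of_mem hx, hS, Nat.add_sub_cancel] at a1
    have a2 : (d.factorial : ℝ) ≤ 2 ^ d * |∏ j ∈ S.erase x, ((x : ℝ) - j)| := by
      rw [abs_prod]
      have : (d.factorial : ℝ) ≤ ((2 ^ d * ∏ a ∈ S.erase x, (x - a).natAbs : ℕ) : ℝ) := by
        exact_mod_cast a1
      simpa [Nat.cast_natAbs] using this
    have a3 : 0 < |∏ j ∈ S.erase x, ((x : ℝ) - j)| := by
      by_contra h0
      have : |∏ j ∈ S.erase x, ((x : ℝ) - j)| = 0 := le_antisymm (not_lt.1 h0) (abs_nonneg _)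
      rw [this] at a2; linarith
    have a4 : (y.map (Int.castRingHom ℝ)).eval (x : ℝ) = ((y.eval x : ℤ) : ℝ) := by
      simp [eval_intCast_map]
    rw [abs_div, a4, div_lt_iff₀ a3]
    refine (hcon x hx).trans_le ?_
    rw [mul_assoc]
    refine le_mul_of_one_le_right (by positivity) ?_
    rw [div_mul_eq_mul_div, le_div_iff₀ hf]
    linarith
  have h3 := (abs_sum_le_sum_abs _ _).trans_lt
    (sum_lt_sum_of_nonempty (card_pos.1 (by omega)) h2)
  rw [← h, sum_const, hS, nsmul_eq_mul] at h3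
  have h4 := pow_le_factorial d hd
  have h5 : ((d + 1 : ℕ) : ℝ) * (((d : ℝ) / 8) ^ d * (2 ^ d / d.factorial)) ≤ 1 := by
    rw [← mul_div_assoc, ← mul_div_assoc, div_le_one hf]
    push_cast; linarith
  linarith

theorem prod_large (y : ℤ[X]) (hd : 8 ≤ y.natDegree) (Z : Finset ℤ) :
    (((y.natDegree : ℝ) / 8) ^ y.natDegree) ^ (Z.card - y.natDegree) ≤
      ∏ x ∈ Z, max 1 |((y.eval x : ℤ) : ℝ)| := by
  classical
  set L := ((y.natDegree : ℝ) / 8) ^ y.natDegree with hL
  have hL1 : 1 ≤ L := one_le_pow₀ (by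
    rw [le_div_iff₀ (by norm_num)]; exact_mod_cast (by omega))
  have h1 : (Z.filter fun x => ¬ L ≤ |((y.eval x : ℤ) : ℝ)|).card ≤ y.natDegree := by
    by_contra h
    obtain ⟨S, hS, hc⟩ := exists_subset_card_eq (Nat.succ_le_of_lt (not_le.1 h))
    obtain ⟨x, hx, h2⟩ := exists_large y hd S hc
    exact (mem_filter.1 (hS hx)).2 h2
  have h2 := card_filter_add_card_filter_not (s := Z) fun x => L ≤ |((y.eval x : ℤ) : ℝ)|
  rw [← prod_filter_mul_prod_filter_not Z fun x => L ≤ |((y.eval x : ℤ) : ℝ)|]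
  refine le_trans ?_ (le_mul_of_one_le_right (prod_nonneg fun _ _ => by positivity)
    (one_le_prod fun _ _ => le_max_left _ _))
  refine (pow_le_pow_right₀ hL1 (n := (Z.filter fun x => L ≤ |((y.eval x : ℤ) : ℝ)|).card)
    (by omega)).trans ?_
  rw [← prod_const]
  exact prod_le_prod (fun _ _ => by positivity)
    fun x hx => (mem_filter.1 hx).2.trans (le_max_right _ _)

end Pool.Agent.MP_57f271_lc.H62
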