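import Pool.Agent.MP_57f271_lc.H62.Global
import Pool.Agent.MP_57f271_lc.H62.Polya

/-! The number `z` of integer roots satisfies `2 z² log₂ (z/24) ≤ 9 · 2^m`. -/

open Polynomial

namespace Pool.Agent.MP_57f271_lc.H62

theorem prod_int_roots_le (y f : ℤ[X]) (hf : f ≠ 0) :
    ∏ x ∈ f.roots.toFinset, max 1 |((y.eval x : ℤ) : ℝ)| ≤ Q ℂ y f 0 := by
  classical
  have hinj : Function.Injective (Int.castRingHom ℂ) := RingHom.injective_int _
  have h1 : f.roots.toFinset.val.map (Int.castRingHom ℂ) ≤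
      (f.map (Int.castRingHom ℂ) - C 0).roots := by
    rw [Multiset.le_iff_subset (f.roots.toFinset.nodup.map hinj), C_0, sub_zero]
    intro z hz
    obtain ⟨x, hx, rfl⟩ := Multiset.mem_map.1 hz
    have hx' : x ∈ f.roots := Multiset.mem_toFinset.1 hx
    rw [mem_roots ((Polynomial.map_ne_zero_iff hinj).2 hf)]
    exact (isRoot_of_mem_roots hx').map
  obtain ⟨t, ht⟩ := Multiset.le_iff_exists_add.1 h1
  unfold Q
  rw [ht, Multiset.map_add, Multiset.prod_add, Multiset.map_map]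
  refine le_trans (le_of_eq ?_) (le_mul_of_one_le_right
    (Multiset.prod_map_nonneg fun _ _ => zero_le_one.trans (le_max_left _ _))
    (Multiset.one_le_prod_map fun _ _ => le_max_left _ _))
  unfold Finset.prod
  congr 1
  refine Multiset.map_congr rfl fun x _ => ?_
  have : aeval (Int.castRingHom ℂ x) y = ((y.eval x : ℤ) : ℂ) := by
    rw [aeval_def, eval₂_eq_eval_map]
    simp [eval_intCast_map]
  simp only [Function.comp, this, Complex.norm_intCast]

theorem Prog.exists_mid {m : ℕ} {u : ℕ → ℤ[X]} (h : Prog m u) {z : ℕ} (hz : 3 ≤ z)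
    (hd : z ≤ (u (m + 1)).natDegree) :
    ∃ a ≤ m + 1, z < 3 * (u a).natDegree ∧ 3 * (u a).natDegree ≤ 2 * z := by
  classical
  have hex : ∃ a, z < 3 * (u a).natDegree := ⟨m + 1, by omega⟩
  have h1 := Nat.find_spec hex
  have h2 : Nat.find hex ≤ m + 1 := Nat.find_min' hex (by omega)
  refine ⟨_, h2, h1, ?_⟩
  by_cases h3 : 2 ≤ Nat.find hex
  · obtain ⟨i, hi, j, hj, hij⟩ := h.2.2 _ h3 h2
    have a1 := Nat.find_min hex hi
    have a2 := Nat.find_min hex hj
    have := natDegree_op_le hij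
    omega
  · have : Nat.find hex = 0 ∨ Nat.find hex = 1 := by omega
    rcases this with h4 | h4
    · rw [h4, h.1]; simp
    · rw [h4, h.2.1, natDegree_X]; omega

theorem numerics {m z d : ℕ} (hz : 24 ≤ z) (h1 : z < 3 * d) (h2 : 3 * d ≤ 2 * z)
    (h : (((d : ℝ) / 8) ^ d) ^ (z - d) ≤ 2 ^ 2 ^ m) :
    2 * (z : ℝ) ^ 2 * Real.logb 2 (z / 24) ≤ 9 * 2 ^ m := by
  obtain ⟨r, hr⟩ : ∃ r, z = d + r := ⟨z - d, by omega⟩
  have hE : 2 * (z : ℝ) ^ 2 ≤ 9 * ((d * r : ℕ) : ℝ) := by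
    have a1 : (r : ℝ) ≤ 2 * d := by exact_mod_cast (by omega : r ≤ 2 * d)
    have a2 : (d : ℝ) ≤ 2 * r := by exact_mod_cast (by omega : d ≤ 2 * r)
    rw [hr]; push_cast
    nlinarith [mul_nonneg (sub_nonneg.2 a1) (sub_nonneg.2 a2)]
  have hz' : (1 : ℝ) ≤ (z : ℝ) / 24 := by
    have : (24 : ℝ) ≤ z := by exact_mod_cast hz
    linarith
  have hd : (z : ℝ) / 24 ≤ (d : ℝ) / 8 := by
    have : (z : ℝ) ≤ 3 * d := by exact_mod_cast h1.le
    linarith
  have h3 : ((z : ℝ) / 24) ^ (d * r) ≤ 2 ^ 2 ^ m := by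
    rw [show z - d = r by omega, ← pow_mul] at h
    exact (pow_le_pow_left₀ (by positivity) hd _).trans h
  have h4 := Real.logb_le_logb_of_le (b := 2) (by norm_num) (by positivity) h3
  rw [Real.logb_pow, Real.logb_pow, Real.logb_self_eq_one (by norm_num), mul_one] at h4
  have h5 : 0 ≤ Real.logb 2 ((z : ℝ) / 24) := Real.logb_nonneg (by norm_num) hz'
  have h6 := mul_le_mul_of_nonneg_right hE h5
  push_cast at h4 h6
  linarith

theorem Prog.card_roots_le {m : ℕ} {u : ℕ → ℤ[X]} (h : Prog m u) (hf : u (m + 1) ≠ 0) :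
    2 * ((u (m + 1)).roots.toFinset.card : ℝ) ^ 2 *
      Real.logb 2 ((u (m + 1)).roots.toFinset.card / 24) ≤ 9 * 2 ^ m := by
  set z := (u (m + 1)).roots.toFinset.card with hz
  by_cases h3 : 24 ≤ z
  · have h1 : z ≤ (u (m + 1)).natDegree := (Multiset.toFinset_card_le _).trans (card_roots' _)
    obtain ⟨a, ha, h4, h5⟩ := h.exists_mid (z := z) (by omega) h1
    exact numerics h3 h4 h5 ((prod_large (u a) (by omega) _).trans
      ((prod_int_roots_le _ _ hf).trans (h.zero_fibre a ha)))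
  · have h4 : (z : ℝ) / 24 ≤ 1 := by
      have : (z : ℝ) ≤ 24 := by exact_mod_cast (not_le.1 h3).le
      linarith
    have h5 : Real.logb 2 ((z : ℝ) / 24) ≤ 0 := Real.logb_nonpos (by norm_num) (by positivity) h4
    exact (mul_nonpos_of_nonneg_of_nonpos (by positivity) h5).trans (by positivity)

end Pool.Agent.MP_57f271_lc.H62
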