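import Pool.Agent.MP_57f271_lc.H62.Chow
import Pool.Agent.MP_57f271_lc.H62.Final

/-! The height of the curve of all items is at most `additions * 2^products` bits. -/

open Polynomial

namespace Pool.Agent.MP_57f271_lc.H62

/-- The images of integer polynomials at a place. -/
noncomputable abbrev toK (K : Type*) [NormedField K] (V : ℕ → ℤ[X]) : ℕ → K[X] :=
  fun i => (V i).map (Int.castRingHom K)

/-- The product over the places `P ∪ {∞}` of the local bounds is at most `2^e`. -/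
def RB (P : Finset Pr) (V : ℕ → ℤ[X]) (n E e : ℕ) : Prop :=
  ∃ (s₀ : ℝ) (s : Pr → ℝ), s₀ * ∏ p ∈ P, s p ≤ 2 ^ e ∧ Rb (toK ℂ V) n E s₀ ∧
    ∀ p ∈ P, Rb (toK (PadicAlgCl p.1) V) n E (s p)

variable {P : Finset Pr}

theorem RB.mono {V : ℕ → ℤ[X]} {n E e e' : ℕ} (h : RB P V n E e) (he : e ≤ e') :
    RB P V n E e' := by
  obtain ⟨s₀, s, h0, h1, h2⟩ := h
  exact ⟨s₀, s, h0.trans (pow_le_pow_right₀ (by norm_num) he), h1, h2⟩

theorem Rb.nonneg {K : Type*} [NormedField K] {v : ℕ → K[X]} {n E : ℕ} {s : ℝ}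
    (hs : Rb v n E s) : 0 ≤ s :=
  (norm_nonneg _).trans (hs (fun _ => 0) (fun _ => 0) (by simp) (by simp))

theorem Rb_base {K : Type*} [NormedField K] {κ : ℝ} (hK : Good K κ) {v : ℕ → K[X]} {N : ℕ}
    (hN : N ≠ 0) (h0 : v 0 = 1) (h1 : v 1 = X ^ N) : Rb v 2 N (κ ^ N) := by
  intro α β hα hβ
  wlog hαβ : ‖α 1‖ ≤ ‖β 1‖ generalizing α β
  · rw [norm_resultant_comm]; exact this β α hβ hα (not_le.1 hαβ).le
  have hq : ‖α 1 / β 1‖ ≤ 1 := by
    rw [norm_div]; exact div_le_one_of_le₀ hαβ (norm_nonneg _)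
  have h2 : α 1 = α 1 / β 1 * β 1 := by
    by_cases h : β 1 = 0
    · have : α 1 = 0 := by simpa [h] using hαβ
      simp [this]
    · field_simp
  have e1 : sec v 2 α = C (α 0 + -(α 1 / β 1) * β 0) + sec v 2 β * C (α 1 / β 1) := by
    simp only [sec, Finset.sum_range_succ, Finset.range_zero, Finset.sum_empty, h0, h1]
    conv_lhs => rw [h2]
    simp only [C_add, C_mul, C_neg]
    ring
  have hd : (sec v 2 β).natDegree ≤ N := natDegree_sec_le (fun i hi => by
    interval_cases i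
    · simp [h0]
    · simp [h1]) β
  have hc : (sec v 2 β).coeff N = β 1 := by
    simp [coeff_sec, Finset.sum_range_succ, h0, h1, coeff_one, hN]
  rw [e1, resultant_add_mul_left _ _ _ _ _ (by simp) hd, resultant_C_left, hc, norm_mul, norm_mul,
    norm_pow, norm_pow, norm_pow, norm_neg, norm_one, one_pow, one_mul]
  have h3 := hK.norm_add_le (hα 0) (b := -(α 1 / β 1) * β 0) (by
    rw [norm_mul, norm_neg]; exact mul_le_one₀ hq (norm_nonneg _) (hβ 0))
  rw [mul_one] at h3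
  exact (mul_le_of_le_one_left (by positivity) (pow_le_one₀ (norm_nonneg _) (hβ 1))).trans
    (pow_le_pow_left₀ (norm_nonneg _) h3 N)

theorem RB_base {V : ℕ → ℤ[X]} {N : ℕ} (hN : N ≠ 0) (h0 : V 0 = 1) (h1 : V 1 = X ^ N) :
    RB P V 2 N N :=
  ⟨2 ^ N, fun _ => 1 ^ N, by simp, Rb_base good_complex hN (by simp [toK, h0])
    (by simp [toK, h1]),
    fun _ _ => Rb_base (good_ultra _) hN (by simp [toK, h0]) (by simp [toK, h1])⟩

theorem RB.step {V : ℕ → ℤ[X]} {n E e k j r c i₀ : ℕ} (h : RB P V n E e)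
    (hv : ∀ i < n, (V i).natDegree ≤ E) (hn : 0 < n) (h0 : V 0 = 1)
    (hi₀ : i₀ < n) (he : (V i₀).coeff E ≠ 0)
    (heP : ∀ p : Pr, (p.1 : ℤ) ∣ (V i₀).coeff E → p ∈ P) (hw : (V n).natDegree ≤ E + k)
    (hw0 : (V n).coeff (E + k) ^ k ≠ 0)
    (hwP : ∀ p : Pr, (p.1 : ℤ) ∣ (V n).coeff (E + k) ^ k → p ∈ P)
    (hr : E + k + j = r * E) (hr1 : 1 ≤ r)
    (hz : ∀ (K : Type) [NormedField K] (κ : ℝ), Good K κ → ∀ z : K,
      ‖(toK K V n).eval z‖ ≤ κ ^ c * W n (fun i => (toK K V i).eval z) ^ r) :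
    RB P V (n + 1) (E + k) (1 + (n + 1 + c) * E + (2 * E + e) * r) := by
  obtain ⟨s₀, s, h1, h2, h3⟩ := h
  have key : ∀ (K : Type) [NormedField K] [CharZero K] [IsAlgClosed K] (κ t : ℝ) (x : K),
      Good K κ → ‖x‖ = κ → Rb (toK K V) n E t → Rb (toK K V) (n + 1) (E + k)
        (κ * ‖(((V n).coeff (E + k) ^ k : ℤ) : K)‖ * (κ ^ (n + 1) * κ ^ c) ^ E *
          ((κ ^ 2) ^ E * t) ^ r / ‖(((V i₀).coeff E : ℤ) : K)‖ ^ j) := by
    intro K _ _ _ κ t x hK hx ht
    have := hK.step hx ht (fun i hi => natDegree_map_le.trans (hv i hi)) hn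
      (by simp [toK, h0]) hi₀ (by simpa using he) (natDegree_map_le.trans hw) hr hr1
      (one_le_pow₀ hK.one_le) (hz K κ hK)
    simpa using this
  refine ⟨_, _, ?_, key ℂ 2 s₀ 2 good_complex (by simp) h2,
    fun p hp => key (PadicAlgCl p.1) 1 (s p) 1 (good_ultra _) (by simp) (h3 p hp)⟩
  have pw := prod_formula P _ hw0 hwP
  have pe := prod_formula P _ he heP
  have a0 := h2.nonneg
  have a1 : 0 ≤ ∏ p ∈ P, s p := Finset.prod_nonneg fun p hp => (h3 p hp).nonneg
  simp only [one_pow, one_mul, mul_one, Finset.prod_div_distrib, Finset.prod_mul_distrib,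
    Finset.prod_pow]
  rw [div_mul_div_comm, ← mul_pow, pe, one_pow, div_one]
  calc _ = 2 * (2 ^ (n + 1) * 2 ^ c) ^ E * ((2 ^ 2) ^ E) ^ r *
        (‖(((V n).coeff (E + k) ^ k : ℤ) : ℂ)‖ *
          ∏ p ∈ P, ‖(((V n).coeff (E + k) ^ k : ℤ) : PadicAlgCl p.1)‖) *
        (s₀ * ∏ p ∈ P, s p) ^ r := by rw [mul_pow, mul_pow]; ring
    _ ≤ 2 * (2 ^ (n + 1) * 2 ^ c) ^ E * ((2 ^ 2) ^ E) ^ r * 1 * (2 ^ e) ^ r := by
        rw [pw]; gcongr
    _ = _ := by rw [← pow_mul, ← pow_mul, ← pow_mul]; ring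

theorem RB.final {V : ℕ → ℤ[X]} {n E e i₀ a b : ℕ} (h : RB P V n E e)
    (hv : ∀ i < n, (V i).natDegree ≤ E) (hn : 0 < n) (h0 : V 0 = 1)
    (hi₀ : i₀ < n) (he : (V i₀).coeff E ≠ 0)
    (heP : ∀ p : Pr, (p.1 : ℤ) ∣ (V i₀).coeff E → p ∈ P) (ha : a < n) (hb : b < n)
    (hb0 : V b ≠ 0) (hbP : ∀ p : Pr, (p.1 : ℤ) ∣ (V b).leadingCoeff → p ∈ P) :
    Q ℂ (V a) (V b) 0 ≤ 2 ^ e := by
  classical
  obtain ⟨s₀, s, h1, h2, h3⟩ := h
  obtain ⟨k, hk⟩ := Nat.exists_eq_add_of_le (hv b hb)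
  have key : ∀ (K : Type) [NormedField K] [CharZero K] [IsAlgClosed K] (κ t : ℝ),
      Good K κ → Rb (toK K V) n E t → ‖(((V i₀).coeff E : ℤ) : K)‖ ^ k *
        (‖(((V b).leadingCoeff : ℤ) : K)‖ ^ E * Q K (V a) (V b) 0) ≤ t := by
    intro K _ _ _ κ t hK ht
    have hinj : Function.Injective (Int.castRingHom K) := RingHom.injective_int _
    obtain ⟨α, hα, h⟩ := hK.exists_sec (v := toK K V)
      (fun i hi => natDegree_map_le.trans (hv i hi)) (toK K V b) k
    rw [natDegree_map_eq_of_injective hinj, ← hk, leadingCoeff_map_of_injective hinj] at h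
    have e1 : toK K V b = sec (toK K V) n fun i => if i = b then 1 else 0 := by
      unfold sec
      rw [Finset.sum_eq_single_of_mem b (Finset.mem_range.2 hb) fun i _ hi => by simp [hi]]
      simp
    have h4 := ht α (fun i => if i = b then 1 else 0) hα fun i => by split_ifs <;> simp
    rw [← e1] at h4
    refine le_trans ?_ (h.trans h4)
    have q0 := zero_le_one.trans (one_le_Q (K := K) (V a) (V b) 0)
    have w0 := W_nonneg n fun i => (toK K V i).coeff E
    refine mul_le_mul (pow_le_pow_left₀ (norm_nonneg _) ?_ k)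
      (mul_le_mul_of_nonneg_left ?_ (by positivity)) (by positivity) (by positivity)
    · simpa using le_W hi₀ fun i => (toK K V i).coeff E
    · unfold Q
      rw [C_0, sub_zero]
      refine Multiset.prod_map_le_prod_map₀ _ _ (fun _ _ => by positivity) fun z _ => max_le ?_ ?_
      · simpa [toK, h0] using le_W hn fun i => (toK K V i).eval z
      · have := le_W ha fun i => (toK K V i).eval z
        rwa [aeval_def, eval₂_eq_eval_map]
  have pb := prod_formula P _ (leadingCoeff_ne_zero.2 hb0) hbP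
  have pe := prod_formula P _ he heP
  have k0 := key ℂ 2 s₀ good_complex h2
  have k1 : ∏ p ∈ P, (‖(((V i₀).coeff E : ℤ) : PadicAlgCl p.1)‖ ^ k *
      ‖(((V b).leadingCoeff : ℤ) : PadicAlgCl p.1)‖ ^ E) ≤ ∏ p ∈ P, s p := by
    refine Finset.prod_le_prod (fun _ _ => by positivity) fun p hp => ?_
    refine le_trans ?_ (key _ 1 (s p) (good_ultra _) (h3 p hp))
    exact mul_le_mul_of_nonneg_left (le_mul_of_one_le_right (by positivity) (one_le_Q _ _ _))
      (by positivity)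
  have h4 := mul_le_mul k0 k1 (Finset.prod_nonneg fun _ _ => by positivity) h2.nonneg
  rw [Finset.prod_mul_distrib, Finset.prod_pow, Finset.prod_pow] at h4
  refine le_trans (le_of_eq ?_) (h4.trans h1)
  calc _ = (‖(((V i₀).coeff E : ℤ) : ℂ)‖ *
        ∏ p ∈ P, ‖(((V i₀).coeff E : ℤ) : PadicAlgCl p.1)‖) ^ k *
        (‖(((V b).leadingCoeff : ℤ) : ℂ)‖ *
          ∏ p ∈ P, ‖(((V b).leadingCoeff : ℤ) : PadicAlgCl p.1)‖) ^ E * Q ℂ (V a) (V b) 0 := by
        rw [pb, pe]; simp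
    _ = _ := by rw [mul_pow, mul_pow]; ring

theorem norm_pow_add_le {K : Type*} [NormedField K] {κ B : ℝ} (hK : Good K κ) {a b : K} {N : ℕ}
    (ha : ‖a ^ N‖ ≤ B) (hb : ‖b ^ N‖ ≤ B) : ‖(a + b) ^ N‖ ≤ κ ^ N * B := by
  rw [norm_pow] at ha hb ⊢
  refine (pow_le_pow_left₀ (norm_nonneg _) (hK.norm_add a b) N).trans ?_
  rw [mul_pow]
  refine mul_le_mul_of_nonneg_left ?_ (pow_nonneg (zero_le_one.trans hK.one_le) N)
  rcases le_total ‖a‖ ‖b‖ with h | h
  · rwa [max_eq_right h]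
  · rwa [max_eq_left h]

/-- A straight-line program whose product steps are those with index in `M`. -/
def ProgM (m : ℕ) (u : ℕ → ℤ[X]) (M : Finset ℕ) : Prop :=
  u 0 = 1 ∧ u 1 = X ∧ ∀ k, 2 ≤ k → k ≤ m + 1 → ∃ i < k, ∃ j < k,
    if k ∈ M then u k = u i * u j else u k = u i + u j ∨ u k = u i - u j

theorem ProgM.prog {m : ℕ} {u : ℕ → ℤ[X]} {M : Finset ℕ} (h : ProgM m u M) : Prog m u := by
  refine ⟨h.1, h.2.1, fun k h1 h2 => ?_⟩
  obtain ⟨i, hi, j, hj, hij⟩ := h.2.2 k h1 h2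
  refine ⟨i, hi, j, hj, ?_⟩
  split_ifs at hij <;> tauto

theorem coeff_pow_natDegree (f : ℤ[X]) (N : ℕ) :
    (f ^ N).coeff (N * f.natDegree) = f.leadingCoeff ^ N := by
  rw [← natDegree_pow, coeff_natDegree, leadingCoeff_pow]

theorem ProgM.height {m : ℕ} {u : ℕ → ℤ[X]} {M : Finset ℕ} (h : ProgM m u M)
    (hM : ∀ k ∈ M, 2 ≤ k)
    (hP : ∀ k ≤ m + 1, u k ≠ 0 → ∀ p : Pr, (p.1 : ℤ) ∣ (u k).leadingCoeff → p ∈ P)
    (n : ℕ) (hn : n ≤ m) : ∃ D i₀ C A : ℕ, i₀ < n + 2 ∧ (u i₀).natDegree = D ∧ D ≠ 0 ∧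
      (∀ i < n + 2, (u i).natDegree ≤ D) ∧ D ≤ 2 ^ (M.filter (· < n + 2)).card ∧
      A + (M.filter (· < n + 2)).card = n ∧ ∀ N, N ≠ 0 → RB P (fun i => u i ^ N) (n + 2) (N * D)
        (N * N * (A * 2 ^ (M.filter (· < n + 2)).card) + N * C) := by
  induction n with
  | zero =>
    have h0 : M.filter (· < 0 + 2) = ∅ :=
      Finset.filter_eq_empty_iff.2 fun k hk => by have := hM k hk; omega
    refine ⟨1, 1, 1, 0, by omega, by simp [h.2.1], by omega, fun i hi => ?_, by rw [h0]; simp,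
      by rw [h0]; simp, fun N hN => ?_⟩
    · interval_cases i
      · simp [h.1]
      · simp [h.2.1]
    · simpa using RB_base (P := P) (V := fun i => u i ^ N) hN (by simp [h.1]) (by simp [h.2.1])
  | succ n ih =>
    obtain ⟨D, i₀, C, A, hi₀, hD, hD0, hdeg, hDle, hA, hRB⟩ := ih (by omega)
    obtain ⟨i, hi, j, hj, hij⟩ := h.2.2 (n + 2) (by omega) (by omega)
    set μ := (M.filter (· < n + 2)).card with hμ
    have di := hdeg i hi
    have dj := hdeg j hj
    have hu0 : u i₀ ≠ 0 := fun h0 => hD0 (by rw [← hD, h0, natDegree_zero])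
    have main : ∀ r c : ℕ, 1 ≤ r → (u (n + 2)).natDegree ≤ r * D →
        (∀ (N : ℕ) (K : Type) [NormedField K] (κ : ℝ), Good K κ → ∀ z : K,
          ‖(toK K (fun i => u i ^ N) (n + 2)).eval z‖ ≤
            κ ^ (c * N) * W (n + 2) (fun i => (toK K (fun i => u i ^ N) i).eval z) ^ r) →
        ∃ D' i₁ : ℕ, i₁ < n + 1 + 2 ∧ (u i₁).natDegree = D' ∧ D' ≠ 0 ∧
          (∀ i < n + 1 + 2, (u i).natDegree ≤ D') ∧ D' ≤ r * D ∧ ∀ N, N ≠ 0 →
          RB P (fun i => u i ^ N) (n + 1 + 2) (N * D') (1 + (n + 2 + 1 + c * N) * (N * D) +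
            (2 * (N * D) + (N * N * (A * 2 ^ μ) + N * C)) * r) := by
      intro r c hr hw hz
      obtain ⟨k, hk⟩ : ∃ k, max D (u (n + 2)).natDegree = D + k :=
        Nat.exists_eq_add_of_le (le_max_left _ _)
      have hrD : D ≤ r * D := Nat.le_mul_of_pos_left _ hr
      obtain ⟨j, hj⟩ : ∃ j, r * D = D + k + j := Nat.exists_eq_add_of_le (by omega)
      have hstep : ∀ N, N ≠ 0 → RB P (fun i => u i ^ N) (n + 1 + 2) (N * (D + k))
          (1 + (n + 2 + 1 + c * N) * (N * D) +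
            (2 * (N * D) + (N * N * (A * 2 ^ μ) + N * C)) * r) := by
        intro N hN
        have hcw : k ≠ 0 → (u (n + 2) ^ N).coeff (N * D + N * k) =
            (u (n + 2)).leadingCoeff ^ N ∧ u (n + 2) ≠ 0 := by
          intro hk0
          have : (u (n + 2)).natDegree = D + k := by omega
          rw [← mul_add, ← this]
          exact ⟨coeff_pow_natDegree _ _, fun h0 => by rw [h0, natDegree_zero] at this; omega⟩
        rw [mul_add N D k]
        refine (hRB N hN).step (k := N * k) (j := N * j) (i₀ := i₀) (fun i hi => ?_) (by omega)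
          (by simp [h.1]) hi₀ ?_ (fun p hp => ?_) ?_ ?_ (fun p hp => ?_) ?_ hr (hz N)
        · rw [natDegree_pow]; exact Nat.mul_le_mul_left _ (hdeg i hi)
        · rw [← hD, coeff_pow_natDegree]; exact pow_ne_zero _ (leadingCoeff_ne_zero.2 hu0)
        · rw [← hD, coeff_pow_natDegree] at hp
          exact hP i₀ (by omega) hu0 p ((Nat.prime_iff_prime_int.1 p.2).dvd_of_dvd_pow hp)
        · rw [natDegree_pow, ← mul_add]; exact Nat.mul_le_mul_left _ (by omega)
        · by_cases hk0 : k = 0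
          · simp [hk0]
          · rw [(hcw hk0).1]
            exact pow_ne_zero _ (pow_ne_zero _ (leadingCoeff_ne_zero.2 (hcw hk0).2))
        · have hp' := Nat.prime_iff_prime_int.1 p.2
          by_cases hk0 : k = 0
          · rw [hk0, mul_zero, pow_zero] at hp
            exact absurd (isUnit_of_dvd_one hp) hp'.not_isUnit
          · rw [(hcw hk0).1] at hp
            exact hP _ (by omega) (hcw hk0).2 p (hp'.dvd_of_dvd_pow (hp'.dvd_of_dvd_pow hp))
        · rw [mul_left_comm, hj]; ring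
      have hall : ∀ i < n + 1 + 2, (u i).natDegree ≤ D + k := fun i hi => by
        rcases (Nat.lt_succ_iff.1 hi).lt_or_eq with h1 | rfl
        · exact (hdeg i h1).trans (by omega)
        · exact hk ▸ le_max_right _ _
      by_cases hk0 : k = 0
      · exact ⟨D + k, i₀, by omega, by omega, by omega, hall, by omega, hstep⟩
      · exact ⟨D + k, n + 2, by omega, by omega, by omega, hall, by omega, hstep⟩
    by_cases hmem : n + 2 ∈ M
    · rw [if_pos hmem] at hij
      have hc : (M.filter (· < n + 1 + 2)).card = μ + 1 := by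
        rw [hμ, ← Finset.card_insert_of_notMem (a := n + 2) (by simp)]
        congr 1
        ext x
        simp only [Finset.mem_filter, Finset.mem_insert]
        constructor
        · rintro ⟨h1, h2⟩
          by_cases h3 : x = n + 2
          · exact Or.inl h3
          · exact Or.inr ⟨h1, by omega⟩
        · rintro (rfl | ⟨h1, h2⟩)
          · exact ⟨hmem, by omega⟩
          · exact ⟨h1, by omega⟩
      obtain ⟨D', i₁, a1, a2, a3, a4, a5, a6⟩ := main 2 0 (by omega)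
        (hij ▸ natDegree_mul_le.trans (by omega)) fun N K _ κ hK z => by
          have b1 := le_W hi fun i => (toK K (fun i => u i ^ N) i).eval z
          have b2 := le_W hj fun i => (toK K (fun i => u i ^ N) i).eval z
          simp only [toK, hij, mul_pow, Polynomial.map_mul, eval_mul, norm_mul, zero_mul, pow_zero,
            one_mul, sq]
          exact mul_le_mul b1 b2 (norm_nonneg _) (W_nonneg _ _)
      refine ⟨D', i₁, 2 * C + 1 + (n + 7) * D, A, a1, a2, a3, a4, by rw [hc, pow_succ]; omega,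
        by omega, fun N hN => (a6 N hN).mono ?_⟩
      rw [hc]
      have : 1 ≤ N := Nat.pos_of_ne_zero hN
      have e : N * N * (A * 2 ^ (μ + 1)) + N * (2 * C + 1 + (n + 7) * D) =
        N + (n + 2 + 1 + 0 * N) * (N * D) +
          (2 * (N * D) + (N * N * (A * 2 ^ μ) + N * C)) * 2 := by ring
      omega
    · rw [if_neg hmem] at hij
      have hc : (M.filter (· < n + 1 + 2)).card = μ := by
        rw [hμ]
        congr 1
        ext x
        simp only [Finset.mem_filter]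
        constructor
        · rintro ⟨h1, h2⟩
          have : x ≠ n + 2 := fun h3 => hmem (h3 ▸ h1)
          exact ⟨h1, by omega⟩
        · rintro ⟨h1, h2⟩
          exact ⟨h1, by omega⟩
      obtain ⟨D', i₁, a1, a2, a3, a4, a5, a6⟩ := main 1 1 le_rfl
        (by
          rcases hij with hij | hij
          · exact hij ▸ (natDegree_add_le _ _).trans (by omega)
          · exact hij ▸ (natDegree_sub_le _ _).trans (by omega)) fun N K _ κ hK z => by
          have b1 := le_W hi fun i => (toK K (fun i => u i ^ N) i).eval z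
          have b2 := le_W hj fun i => (toK K (fun i => u i ^ N) i).eval z
          simp only [toK, Polynomial.map_pow, eval_pow, one_mul, pow_one] at b1 b2 ⊢
          rcases hij with hij | hij
          · rw [hij, Polynomial.map_add, eval_add]
            exact norm_pow_add_le hK b1 b2
          · rw [hij, Polynomial.map_sub, eval_sub, sub_eq_add_neg]
            exact norm_pow_add_le hK b1 (by simpa using b2)
      refine ⟨D', i₁, C + 1 + (n + 5) * D, A + 1, a1, a2, a3, a4, by rw [hc]; omega,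
        by omega, fun N hN => (a6 N hN).mono ?_⟩
      rw [hc]
      have h1 : 1 ≤ N := Nat.pos_of_ne_zero hN
      have h2 := Nat.mul_le_mul_left (N * N) hDle
      have e : N * N * ((A + 1) * 2 ^ μ) + N * (C + 1 + (n + 5) * D) + N * N * D =
        N + (n + 2 + 1 + 1 * N) * (N * D) +
          (2 * (N * D) + (N * N * (A * 2 ^ μ) + N * C)) * 1 + N * N * 2 ^ μ := by ring
      omega

theorem le_of_pow_bound {q B C : ℝ} (hB : 0 < B) (hC : 0 ≤ C)
    (h : ∀ N : ℕ, N ≠ 0 → (q ^ N) ^ N ≤ (B ^ N * C) ^ N) : q ≤ B := by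
  by_contra hc
  have h1 : 1 < q / B := by
    rw [lt_div_iff₀ hB, one_mul]; exact not_le.1 hc
  obtain ⟨N, hN⟩ := pow_unbounded_of_one_lt C h1
  have h2 : (q / B) ^ (N + 1) ≤ C := by
    rw [div_pow, div_le_iff₀ (by positivity), mul_comm]
    exact le_of_pow_le_pow_left₀ (Nat.succ_ne_zero N) (by positivity) (h (N + 1) (by omega))
  exact absurd ((pow_le_pow_right₀ h1.le (Nat.le_succ N)).trans h2) (not_le.2 hN)

theorem ProgM.zero_fibre {m : ℕ} {u : ℕ → ℤ[X]} {M : Finset ℕ} (h : ProgM m u M)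
    (hM : ∀ k ∈ M, 2 ≤ k ∧ k ≤ m + 1) (hf : u (m + 1) ≠ 0) (a : ℕ) (ha : a ≤ m + 1) :
    Q ℂ (u a) (u (m + 1)) 0 ≤ 2 ^ ((m - M.card) * 2 ^ M.card) := by
  classical
  let L : ℕ := (Finset.range (m + 2)).sup fun k => (u k).leadingCoeff.natAbs
  let P : Finset Pr := (Finset.range (L + 1)).subtype Nat.Prime
  have hP : ∀ k ≤ m + 1, u k ≠ 0 → ∀ p : Pr, (p.1 : ℤ) ∣ (u k).leadingCoeff → p ∈ P := by
    intro k hk h0 p hp
    have h1 : (u k).leadingCoeff ≠ 0 := leadingCoeff_ne_zero.2 h0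
    have h2 : p.1 ≤ (u k).leadingCoeff.natAbs :=
      Nat.le_of_dvd (Int.natAbs_pos.2 h1) (Int.natCast_dvd.1 hp)
    have h3 : (u k).leadingCoeff.natAbs ≤ L :=
      Finset.le_sup (f := fun k => (u k).leadingCoeff.natAbs) (Finset.mem_range.2 (by omega))
    exact Finset.mem_subtype.2 (Finset.mem_range.2 (by omega))
  obtain ⟨D, i₀, C, A, hi₀, hD, hD0, hdeg, -, hA, hRB⟩ :=
    h.height (fun k hk => (hM k hk).1) hP m le_rfl
  have hMf : M.filter (· < m + 2) = M :=
    Finset.filter_true_of_mem fun k hk => by have := (hM k hk).2; omega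
  rw [hMf] at hA hRB
  have hu0 : u i₀ ≠ 0 := fun h0 => hD0 (by rw [← hD, h0, natDegree_zero])
  rw [show m - M.card = A by omega]
  refine le_of_pow_bound (C := 2 ^ C) (by positivity) (by positivity) fun N hN => ?_
  have h1 := (hRB N hN).final (i₀ := i₀) (a := a) (b := m + 1)
    (fun i hi => by rw [natDegree_pow]; exact Nat.mul_le_mul_left _ (hdeg i hi)) (by omega)
    (by simp [h.1]) hi₀
    (by rw [← hD, coeff_pow_natDegree]; exact pow_ne_zero _ (leadingCoeff_ne_zero.2 hu0))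
    (fun p hp => by
      rw [← hD, coeff_pow_natDegree] at hp
      exact hP i₀ (by omega) hu0 p ((Nat.prime_iff_prime_int.1 p.2).dvd_of_dvd_pow hp))
    (by omega) (by omega) (pow_ne_zero _ hf)
    (fun p hp => by
      rw [leadingCoeff_pow] at hp
      exact hP _ le_rfl hf p ((Nat.prime_iff_prime_int.1 p.2).dvd_of_dvd_pow hp))
  rw [Q_pow_left, Q_pow_right] at h1
  refine h1.trans (le_of_eq ?_)
  ring

theorem numericsB {B z d : ℕ} (hz : 24 ≤ z) (h1 : z < 3 * d) (h2 : 3 * d ≤ 2 * z)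
    (h : (((d : ℝ) / 8) ^ d) ^ (z - d) ≤ 2 ^ B) :
    2 * (z : ℝ) ^ 2 * Real.logb 2 (z / 24) ≤ 9 * (B : ℝ) := by
  obtain ⟨r, hr⟩ : ∃ r, z = d + r := ⟨z - d, by omega⟩
  have hE : 2 * (z : ℝ) ^ 2 ≤ 9 * ((d * r : ℕ) : ℝ) := by
    have a1 : (r : ℝ) ≤ 2 * d := by exact_mod_cast (by omega : r ≤ 2 * d)
    have a2 : (d : ℝ) ≤ 2 * r := by exact_mod_cast (by omega : d ≤ 2 * r)
    rw [hr]; push_cast
    nlinarith [mul_nonneg (sub_nonneg.2 a1) (sub_nonneg.2 a2)]
  have hz' : (1 : ℝ) ≤ (z : ℝ) / 24 := by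
    have : (24 : ℝ) ≤ z := by exact_mod_cast hz
    linarith
  have hd : (z : ℝ) / 24 ≤ (d : ℝ) / 8 := by
    have : (z : ℝ) ≤ 3 * d := by exact_mod_cast h1.le
    linarith
  have h3 : ((z : ℝ) / 24) ^ (d * r) ≤ 2 ^ B := by
    rw [show z - d = r by omega, ← pow_mul] at h
    exact (pow_le_pow_left₀ (by positivity) hd _).trans h
  have h4 := Real.logb_le_logb_of_le (b := 2) (by norm_num) (by positivity) h3
  rw [Real.logb_pow, Real.logb_pow, Real.logb_self_eq_one (by norm_num), mul_one] at h4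
  have h5 : 0 ≤ Real.logb 2 ((z : ℝ) / 24) := Real.logb_nonneg (by norm_num) hz'
  have h6 := mul_le_mul_of_nonneg_right hE h5
  linarith

theorem ProgM.card_roots_le {m : ℕ} {u : ℕ → ℤ[X]} {M : Finset ℕ} (h : ProgM m u M)
    (hM : ∀ k ∈ M, 2 ≤ k ∧ k ≤ m + 1) (hf : u (m + 1) ≠ 0) :
    2 * ((u (m + 1)).roots.toFinset.card : ℝ) ^ 2 *
      Real.logb 2 ((u (m + 1)).roots.toFinset.card / 24) ≤
        9 * (((m - M.card) * 2 ^ M.card : ℕ) : ℝ) := by
  set z := (u (m + 1)).roots.toFinset.card with hz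
  by_cases h3 : 24 ≤ z
  · have h1 : z ≤ (u (m + 1)).natDegree := (Multiset.toFinset_card_le _).trans (card_roots' _)
    obtain ⟨a, ha, h4, h5⟩ := h.prog.exists_mid (z := z) (by omega) h1
    exact numericsB h3 h4 h5 ((prod_large (u a) (by omega) _).trans
      ((prod_int_roots_le _ _ hf).trans (h.zero_fibre hM hf a ha)))
  · have h4 : (z : ℝ) / 24 ≤ 1 := by
      have : (z : ℝ) ≤ 24 := by exact_mod_cast (not_le.1 h3).le
      linarith
    have h5 : Real.logb 2 ((z : ℝ) / 24) ≤ 0 := Real.logb_nonpos (by norm_num) (by positivity) h4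
    exact (mul_nonpos_of_nonneg_of_nonpos (by positivity) h5).trans (by positivity)

end Pool.Agent.MP_57f271_lc.H62
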