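import Pool.Agent.MP_57f271_lc.H62.Places

/-! The global pairing of two items of a straight-line program is at most `2^m` bits. -/

open Polynomial

namespace Pool.Agent.MP_57f271_lc.H62

/-- The pairing of `u` with `y` over the places `P ∪ {∞}` is at most `e` bits. -/
def B (P : Finset Pr) (u y : ℤ[X]) (e : ℕ) : Prop :=
  ∃ (s₀ : ℝ) (s : Pr → ℝ), s₀ * ∏ p ∈ P, s p ≤ 2 ^ e ∧
    (∀ η : ℂ, ‖η‖ ≤ 1 → Q ℂ u y η ≤ s₀) ∧
    ∀ p ∈ P, ∀ η : PadicAlgCl p.1, ‖η‖ ≤ 1 → Q (PadicAlgCl p.1) u y η ≤ s p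

variable {P : Finset Pr}

theorem B.mono {u y : ℤ[X]} {e e' : ℕ} (h : B P u y e) (he : e ≤ e') : B P u y e' := by
  obtain ⟨s₀, s, h0, h1, h2⟩ := h
  exact ⟨s₀, s, h0.trans (pow_le_pow_right₀ (by norm_num) he), h1, h2⟩

theorem B_of_one {u y : ℤ[X]}
    (h : ∀ (K : Type) [NormedField K] [CharZero K] [IsAlgClosed K] (η : K), ‖η‖ ≤ 1 →
      Q K u y η = 1) : B P u y 0 :=
  ⟨1, fun _ => 1, by simp, fun η hη => (h _ η hη).le, fun _ _ η hη => (h _ η hη).le⟩

theorem one_le_of_Q {K : Type*} [NormedField K] {u y : ℤ[X]} {s : ℝ}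
    (h : ∀ η : K, ‖η‖ ≤ 1 → Q K u y η ≤ s) : 1 ≤ s :=
  (one_le_Q u y 0).trans (h 0 (by simp))

theorem B_comb {u y v y₁ w y₂ : ℤ[X]} {e₁ e₂ : ℕ} (d : ℕ) (h₁ : B P v y₁ e₁) (h₂ : B P w y₂ e₂)
    (h : ∀ (K : Type) [NormedField K] [CharZero K] [IsAlgClosed K] (κ : ℝ), Good K κ →
      ∀ η : K, ‖η‖ ≤ 1 → ∃ η₁ η₂ : K, ‖η₁‖ ≤ 1 ∧ ‖η₂‖ ≤ 1 ∧
        Q K u y η ≤ κ ^ d * (Q K v y₁ η₁ * Q K w y₂ η₂)) : B P u y (e₁ + e₂ + d) := by
  obtain ⟨s₀, s, h0, h1, h2⟩ := h₁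
  obtain ⟨t₀, t, k0, k1, k2⟩ := h₂
  have hs0 := one_le_of_Q h1
  have ht0 := one_le_of_Q k1
  have hs : ∀ p ∈ P, 1 ≤ s p := fun p hp => one_le_of_Q (h2 p hp)
  have ht : ∀ p ∈ P, 1 ≤ t p := fun p hp => one_le_of_Q (k2 p hp)
  refine ⟨2 ^ d * (s₀ * t₀), fun p => s p * t p, ?_, fun η hη => ?_, fun p hp η hη => ?_⟩
  · have a1 : 0 ≤ t₀ * ∏ p ∈ P, t p :=
      mul_nonneg (by linarith) (Finset.prod_nonneg fun p hp => by linarith [ht p hp])
    rw [Finset.prod_mul_distrib]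
    calc _ = 2 ^ d * ((s₀ * ∏ p ∈ P, s p) * (t₀ * ∏ p ∈ P, t p)) := by ring
      _ ≤ 2 ^ d * (2 ^ e₁ * 2 ^ e₂) :=
        mul_le_mul_of_nonneg_left (mul_le_mul h0 k0 a1 (by positivity)) (by positivity)
      _ = _ := by ring
  · obtain ⟨η₁, η₂, a1, a2, a3⟩ := h ℂ 2 good_complex η hη
    refine a3.trans (mul_le_mul_of_nonneg_left ?_ (by positivity))
    exact mul_le_mul (h1 _ a1) (k1 _ a2) (zero_le_one.trans (one_le_Q _ _ _)) (by linarith)
  · obtain ⟨η₁, η₂, a1, a2, a3⟩ := h (PadicAlgCl p.1) 1 (good_ultra _) η hη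
    rw [one_pow, one_mul] at a3
    refine a3.trans ?_
    exact mul_le_mul (h2 p hp _ a1) (k2 p hp _ a2) (zero_le_one.trans (one_le_Q _ _ _))
      (by linarith [hs p hp])

theorem Q_pow_left {K : Type*} [NormedField K] (u y : ℤ[X]) (η : K) (N : ℕ) :
    Q K (u ^ N) y η = Q K u y η ^ N := by
  unfold Q
  rw [← Multiset.prod_map_pow]
  congr 1
  refine Multiset.map_congr rfl fun z _ => ?_
  rw [map_pow, norm_pow]
  rcases le_total 1 ‖aeval z u‖ with h | h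
  · rw [max_eq_right h, max_eq_right (one_le_pow₀ h)]
  · rw [max_eq_left h, max_eq_left (pow_le_one₀ (norm_nonneg _) h), one_pow]

theorem Q_pow_right {K : Type*} [NormedField K] (u y : ℤ[X]) (N : ℕ) :
    Q K u (y ^ N) 0 = Q K u y 0 ^ N := by
  unfold Q
  rw [C_0, sub_zero, sub_zero, Polynomial.map_pow, roots_pow, Multiset.map_nsmul,
    Multiset.prod_nsmul]

theorem Q_mul {K : Type*} [NormedField K] (v w y : ℤ[X]) (η : K) :
    Q K (v * w) y η ≤ Q K v y η * Q K w y η := by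
  unfold Q
  rw [← Multiset.prod_map_mul]
  refine Multiset.prod_map_le_prod_map₀ _ _ (fun _ _ => by positivity) fun z _ => ?_
  rw [map_mul]
  exact max_mul_le _ _

theorem B_mul {v w y : ℤ[X]} {e₁ e₂ : ℕ} (h₁ : B P v y e₁) (h₂ : B P w y e₂) :
    B P (v * w) y (e₁ + e₂ + 0) :=
  B_comb _ h₁ h₂ fun _ _ _ _ _ _ η hη => ⟨η, η, hη, hη, by
    rw [pow_zero, one_mul]; exact Q_mul _ _ _ _⟩

theorem B_op {u v w y : ℤ[X]} {e₁ e₂ : ℕ} (N : ℕ) (h : u = v + w ∨ u = v - w ∨ u = v * w)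
    (h₁ : B P (v ^ N) y e₁) (h₂ : B P (w ^ N) y e₂) :
    B P (u ^ N) y (e₁ + e₂ + y.natDegree * N) :=
  B_comb _ h₁ h₂ fun _ _ _ _ _ hK η hη => ⟨η, η, hη, hη, by
    rw [Q_pow_left, Q_pow_left, Q_pow_left, pow_mul, ← mul_pow, ← mul_pow]
    exact pow_le_pow_left₀ (zero_le_one.trans (one_le_Q _ _ _)) (Q_op hK h y η) N⟩

theorem B_const_left {c u v w : ℤ[X]} {e₁ e₂ : ℕ} (hc : c.natDegree = 0)
    (h : u.natDegree ≤ v.natDegree + w.natDegree)
    (h₁ : B P c v e₁) (h₂ : B P c w e₂) : B P c u (e₁ + e₂ + 0) :=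
  B_comb _ h₁ h₂ fun K _ _ _ _ _ η _ => ⟨0, 0, by simp, by simp, by
    rw [Q_const_left hc, Q_const_left hc, Q_const_left hc, pow_zero, one_mul, ← pow_add]
    exact pow_le_pow_right₀ (le_max_left _ _) h⟩

theorem B_recip {u y : ℤ[X]} {e : ℕ} (hu : u.natDegree ≠ 0) (hy : y.natDegree ≠ 0)
    (hPu : ∀ p : Pr, (p.1 : ℤ) ∣ u.leadingCoeff → p ∈ P)
    (hPy : ∀ p : Pr, (p.1 : ℤ) ∣ y.leadingCoeff → p ∈ P)
    (h : B P y u e) : B P u y (e + u.natDegree) := by
  obtain ⟨s₀, s, h0, h1, h2⟩ := h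
  have hu0 : u.leadingCoeff ≠ 0 := leadingCoeff_ne_zero.2 fun h => hu (by simp [h])
  have hy0 : y.leadingCoeff ≠ 0 := leadingCoeff_ne_zero.2 fun h => hy (by simp [h])
  have key : ∀ (K : Type) [NormedField K] [CharZero K] [IsAlgClosed K] (κ t : ℝ), Good K κ →
      (∀ η : K, ‖η‖ ≤ 1 → Q K y u η ≤ t) → ∀ η : K, ‖η‖ ≤ 1 → Q K u y η ≤
        κ ^ u.natDegree * ‖((u.leadingCoeff : ℤ) : K)‖ ^ y.natDegree * t /
          ‖((y.leadingCoeff : ℤ) : K)‖ ^ u.natDegree := by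
    intro K _ _ _ κ t hK ht η hη
    obtain ⟨ζ, hζ, h⟩ := Q_recip hK hu hy hη
    have hκ := hK.one_le
    have : 0 < ‖((y.leadingCoeff : ℤ) : K)‖ := norm_pos_iff.2 (Int.cast_ne_zero.2 hy0)
    rw [le_div_iff₀ (by positivity), mul_comm]
    exact h.trans (mul_le_mul_of_nonneg_left (ht ζ hζ) (by positivity))
  refine ⟨_, _, ?_, key ℂ 2 s₀ good_complex h1,
    fun p hp => key (PadicAlgCl p.1) 1 (s p) (good_ultra _) (h2 p hp)⟩
  have pu := prod_formula P _ hu0 hPu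
  have py := prod_formula P _ hy0 hPy
  simp only [one_pow, one_mul, Finset.prod_div_distrib, Finset.prod_mul_distrib, Finset.prod_pow]
  rw [div_mul_div_comm, ← mul_pow, py, one_pow, div_one]
  calc _ = 2 ^ u.natDegree * (‖((u.leadingCoeff : ℤ) : ℂ)‖ *
        ∏ p ∈ P, ‖((u.leadingCoeff : ℤ) : PadicAlgCl p.1)‖) ^ y.natDegree *
        (s₀ * ∏ p ∈ P, s p) := by rw [mul_pow]; ring
    _ = 2 ^ u.natDegree * (s₀ * ∏ p ∈ P, s p) := by rw [pu, one_pow, mul_one]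
    _ ≤ 2 ^ u.natDegree * 2 ^ e := mul_le_mul_of_nonneg_left h0 (by positivity)
    _ = _ := by ring

theorem natDegree_op_le {u v w : ℤ[X]} (h : u = v + w ∨ u = v - w ∨ u = v * w) :
    u.natDegree ≤ v.natDegree + w.natDegree := by
  rcases h with rfl | rfl | rfl
  · exact (natDegree_add_le _ _).trans (by omega)
  · exact (natDegree_sub_le _ _).trans (by omega)
  · exact natDegree_mul_le

/-- `u 0, …, u (m+1)` is a straight-line program starting from `1, X`. -/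
def Prog (m : ℕ) (u : ℕ → ℤ[X]) : Prop :=
  u 0 = 1 ∧ u 1 = X ∧ ∀ k, 2 ≤ k → k ≤ m + 1 → ∃ i < k, ∃ j < k,
    u k = u i + u j ∨ u k = u i - u j ∨ u k = u i * u j

theorem Prog.deg_le {m : ℕ} {u : ℕ → ℤ[X]} (h : Prog m u) (n : ℕ) (hn : n ≤ m) :
    ∀ k ≤ n + 1, (u k).natDegree ≤ 2 ^ n := by
  induction n with
  | zero =>
    intro k hk
    interval_cases k
    · simp [h.1]
    · simp [h.2.1]
  | succ n ih =>
    intro k hk
    have ih' := ih (by omega)
    rcases hk.lt_or_eq with hk | rfl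
    · exact (ih' k (by omega)).trans (Nat.pow_le_pow_right (by norm_num) (by omega))
    · obtain ⟨i, hi, j, hj, hij⟩ := h.2.2 (n + 1 + 1) (by omega) (by omega)
      have := natDegree_op_le hij
      have h1 := ih' i (by omega)
      have h2 := ih' j (by omega)
      rw [pow_succ]; omega

theorem Prog.pairs {m : ℕ} {u : ℕ → ℤ[X]} (h : Prog m u)
    (hP : ∀ k ≤ m + 1, (u k).natDegree ≠ 0 → ∀ p : Pr, (p.1 : ℤ) ∣ (u k).leadingCoeff → p ∈ P)
    (N : ℕ) (n : ℕ) (hn : n ≤ m) : ∃ δ e : ℕ, (∀ k ≤ n + 1, (u k).natDegree ≤ δ) ∧ δ ≤ 2 ^ n ∧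
      e + N * N * δ ≤ N * N * 2 ^ n + N * n * 2 ^ n ∧
      ∀ a ≤ n + 1, ∀ b ≤ n + 1, B P (u a ^ N) (u b ^ N) e := by
  induction n with
  | zero =>
    refine ⟨1, 0, h.deg_le 0 hn, le_rfl, by simp, fun a ha b hb => ?_⟩
    refine B_of_one fun K _ _ _ η hη => ?_
    by_cases hab : a = b
    · subst hab; exact Q_self _ hη
    interval_cases b
    · exact Q_const_right _ (by simp [h.1]) η
    · have : a = 0 := by omega
      subst this
      rw [Q_const_left (by simp [h.1])]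
      simp [h.1]
  | succ n ih =>
    obtain ⟨δ, e, hd, hδ, he, ih'⟩ := ih (by omega)
    obtain ⟨i, hi, j, hj, hij⟩ := h.2.2 (n + 1 + 1) (by omega) (by omega)
    have di := hd i (by omega)
    have dj := hd j (by omega)
    obtain ⟨c, δ', h1, h2, h3, h4, new⟩ : ∃ c δ' : ℕ, δ ≤ δ' ∧ δ' ≤ 2 * δ ∧
        (u (n + 1 + 1)).natDegree ≤ δ' ∧ c + N * N * δ' = 2 * (N * N * δ) ∧
        ∀ b ≤ n + 1, B P (u (n + 1 + 1) ^ N) (u b ^ N) (e + e + c) := by
      have hadd : ∀ b ≤ n + 1, B P (u (n + 1 + 1) ^ N) (u b ^ N) (e + e + N * N * δ) := by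
        intro b hb
        refine (B_op N hij (ih' i (by omega) b hb) (ih' j (by omega) b hb)).mono ?_
        rw [natDegree_pow]
        have := Nat.mul_le_mul_left (N * N) (hd b hb)
        nlinarith
      rcases hij with hij | hij | hij
      · exact ⟨_, δ, le_rfl, by omega, hij ▸ (natDegree_add_le _ _).trans (by omega),
          by ring, hadd⟩
      · exact ⟨_, δ, le_rfl, by omega, hij ▸ (natDegree_sub_le _ _).trans (by omega),
          by ring, hadd⟩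
      · refine ⟨0, 2 * δ, by omega, le_rfl, hij ▸ natDegree_mul_le.trans (by omega), by ring,
          fun b hb => ?_⟩
        rw [hij, mul_pow]
        exact B_mul (ih' i (by omega) b hb) (ih' j (by omega) b hb)
    refine ⟨δ', e + e + c + N * δ, fun k hk => ?_, by rw [pow_succ]; omega, ?_,
      fun a ha b hb => ?_⟩
    · rcases hk.lt_or_eq with hk | rfl
      · exact (hd k (by omega)).trans h1
      · exact h3
    · have := Nat.mul_le_mul_left N hδ
      have e1 : N * N * 2 ^ (n + 1) + N * (n + 1) * 2 ^ (n + 1) =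
        2 * (N * N * 2 ^ n + N * n * 2 ^ n) + 2 * (N * 2 ^ n) := by ring
      omega
    have hlead : ∀ k ≤ m + 1, (u k ^ N).natDegree ≠ 0 → ∀ p : Pr,
        (p.1 : ℤ) ∣ (u k ^ N).leadingCoeff → p ∈ P := by
      intro k hk h0 p hp
      rw [natDegree_pow] at h0
      rw [leadingCoeff_pow] at hp
      exact hP k hk (right_ne_zero_of_mul h0) p
        ((Nat.prime_iff_prime_int.1 p.2).dvd_of_dvd_pow hp)
    rcases ha.lt_or_eq with ha | rfl
    · rcases hb.lt_or_eq with hb | rfl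
      · exact (ih' a (by omega) b (by omega)).mono (by omega)
      · by_cases ha0 : (u a ^ N).natDegree = 0
        · refine (B_const_left ha0 ?_ (ih' a (by omega) i (by omega))
            (ih' a (by omega) j (by omega))).mono (by omega)
          rw [natDegree_pow, natDegree_pow, natDegree_pow, ← mul_add]
          exact Nat.mul_le_mul_left _ (natDegree_op_le hij)
        by_cases hb0 : (u (n + 1 + 1) ^ N).natDegree = 0
        · exact (B_of_one fun K _ _ _ η _ => Q_const_right _ hb0 η).mono (by omega)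
        refine (B_recip ha0 hb0 (hlead a (by omega) ha0) (hlead _ (by omega) hb0)
          (new a (by omega))).mono ?_
        rw [natDegree_pow]
        have := Nat.mul_le_mul_left N (hd a (by omega))
        omega
    · rcases hb.lt_or_eq with hb | rfl
      · exact (new b (by omega)).mono (by omega)
      · exact (B_of_one fun K _ _ _ η hη => Q_self _ hη).mono (by omega)

/-- Every item is small, on average, at the complex roots of the last item. -/
theorem Prog.zero_fibre {m : ℕ} {u : ℕ → ℤ[X]} (h : Prog m u) (a : ℕ) (ha : a ≤ m + 1) :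
    Q ℂ (u a) (u (m + 1)) 0 ≤ 2 ^ 2 ^ m := by
  classical
  let M : ℕ := (Finset.range (m + 2)).sup fun k => (u k).leadingCoeff.natAbs
  let P : Finset Pr := (Finset.range (M + 1)).subtype Nat.Prime
  have hP : ∀ k ≤ m + 1, (u k).natDegree ≠ 0 → ∀ p : Pr,
      (p.1 : ℤ) ∣ (u k).leadingCoeff → p ∈ P := by
    intro k hk h0 p hp
    have h1 : (u k).leadingCoeff ≠ 0 := leadingCoeff_ne_zero.2 fun h => h0 (by simp [h])
    have h2 : p.1 ≤ (u k).leadingCoeff.natAbs :=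
      Nat.le_of_dvd (Int.natAbs_pos.2 h1) (Int.natCast_dvd.1 hp)
    have h3 : (u k).leadingCoeff.natAbs ≤ M :=
      Finset.le_sup (f := fun k => (u k).leadingCoeff.natAbs) (Finset.mem_range.2 (by omega))
    exact Finset.mem_subtype.2 (Finset.mem_range.2 (by omega))
  set q := Q ℂ (u a) (u (m + 1)) 0 with hq
  have hq1 : 1 ≤ q := one_le_Q _ _ _
  have key : ∀ N : ℕ, N ≠ 0 → (q / 2 ^ 2 ^ m) ^ N ≤ 2 ^ (m * 2 ^ m) := by
    intro N hN
    obtain ⟨δ, e, -, -, he, hB⟩ := h.pairs hP N m le_rfl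
    obtain ⟨s₀, s, h0, h1, h2⟩ := hB a ha (m + 1) le_rfl
    have hs0 := one_le_of_Q h1
    have hs : 1 ≤ ∏ p ∈ P, s p := Finset.one_le_prod fun p hp => one_le_of_Q (h2 p hp)
    have h3 := (h1 0 (by simp)).trans ((le_mul_of_one_le_right (by linarith) hs).trans h0)
    rw [Q_pow_left, Q_pow_right, ← hq] at h3
    have h4 : (q ^ N) ^ N ≤ ((2 ^ 2 ^ m) ^ N * 2 ^ (m * 2 ^ m)) ^ N := by
      refine h3.trans ?_
      rw [← pow_mul, ← pow_add, ← pow_mul]
      refine pow_le_pow_right₀ (by norm_num) ?_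
      have : (2 ^ m * N + m * 2 ^ m) * N = N * N * 2 ^ m + N * m * 2 ^ m := by ring
      omega
    rw [div_pow, div_le_iff₀ (by positivity), mul_comm]
    exact le_of_pow_le_pow_left₀ hN (by positivity) h4
  by_contra hc
  have h1 : 1 < q / 2 ^ 2 ^ m := by
    rw [lt_div_iff₀ (by positivity), one_mul]; exact not_le.1 hc
  obtain ⟨N, hN⟩ := pow_unbounded_of_one_lt ((2 : ℝ) ^ (m * 2 ^ m)) h1
  have h2 := key (N + 1) (by omega)
  have h3 := pow_le_pow_right₀ h1.le (Nat.le_succ N)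
  exact absurd (h3.trans h2) (not_le.2 hN)

end Pool.Agent.MP_57f271_lc.H62
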