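import Pool.Agent.MP_57f271_lc.H62.ChowGlobal

/-! Programs with product steps and integer linear steps. -/

open Polynomial

namespace Pool.Agent.MP_57f271_lc.H62

variable {P : Finset Pr}

theorem Good.norm_list_sum {K : Type*} [NormedField K] {κ B : ℝ} (hK : Good K κ) (hB : 0 ≤ B)
    (h : ℕ) (l : List K) (hl : l.length ≤ 2 ^ h) (hx : ∀ x ∈ l, ‖x‖ ≤ B) :
    ‖l.sum‖ ≤ κ ^ h * B := by
  induction h generalizing l with
  | zero =>
    match l, hl, hx with
    | [], _, _ => simpa using hB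
    | [a], _, hx => simpa using hx a (by simp)
    | _ :: _ :: _, hl, _ => simp at hl
  | succ h ih =>
    rw [← List.sum_take_add_sum_drop l (2 ^ h), pow_succ' κ, mul_assoc]
    refine hK.norm_add_le (ih _ (by simp) fun x hx' => hx x (List.mem_of_mem_take hx'))
      (ih _ ?_ fun x hx' => hx x (List.mem_of_mem_drop hx'))
    rw [List.length_drop]; rw [pow_succ] at hl; omega

theorem exists_list_sum {K : Type*} [NormedField K] {B : ℝ} (c : ℕ → ℤ) (x : ℕ → K) (n : ℕ)
    (hx : ∀ i < n, ‖x i‖ ≤ B) : ∃ l : List K, (l.length : ℤ) = ∑ i ∈ Finset.range n, |c i| ∧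
      (∀ y ∈ l, ‖y‖ ≤ B) ∧ l.sum = ∑ i ∈ Finset.range n, (c i : K) * x i := by
  induction n with
  | zero => exact ⟨[], by simp, by simp, by simp⟩
  | succ n ih =>
    obtain ⟨l, h1, h2, h3⟩ := ih fun i hi => hx i (by omega)
    have hn := hx n (by omega)
    obtain ⟨k, hk | hk⟩ := (c n).eq_nat_or_neg
    · refine ⟨l ++ List.replicate k (x n), by simp [Finset.sum_range_succ, h1, hk],
        fun y hy => ?_, by simp [Finset.sum_range_succ, h3, hk]⟩
      rcases List.mem_append.1 hy with h | h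
      · exact h2 y h
      · rwa [List.eq_of_mem_replicate h]
    · refine ⟨l ++ List.replicate k (-x n), by simp [Finset.sum_range_succ, h1, hk],
        fun y hy => ?_, by simp [Finset.sum_range_succ, h3, hk]⟩
      rcases List.mem_append.1 hy with h | h
      · exact h2 y h
      · rwa [List.eq_of_mem_replicate h, norm_neg]

theorem Good.norm_pow_lin {K : Type*} [NormedField K] {κ : ℝ} (hK : Good K κ) {c : ℕ → ℤ}
    {n h : ℕ} (hn : 0 < n) (hc : ∑ i ∈ Finset.range n, |c i| ≤ 2 ^ h) (x : ℕ → K) (N : ℕ) :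
    ‖(∑ i ∈ Finset.range n, (c i : K) * x i) ^ N‖ ≤ κ ^ (h * N) * W n fun i => x i ^ N := by
  obtain ⟨i, hi, hmax⟩ := (Finset.range n).exists_max_image (fun i => ‖x i‖)
    ⟨0, Finset.mem_range.2 hn⟩
  obtain ⟨l, h1, h2, h3⟩ := exists_list_sum c x n fun j hj => hmax j (Finset.mem_range.2 hj)
  have h4 := hK.norm_list_sum (norm_nonneg _) h l (by exact_mod_cast h1 ▸ hc) h2
  have h5 := le_W (Finset.mem_range.1 hi) fun i => x i ^ N
  rw [norm_pow] at h5 ⊢
  rw [← h3, pow_mul]
  refine (pow_le_pow_left₀ (norm_nonneg _) h4 N).trans ?_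
  rw [mul_pow]
  have := hK.one_le
  gcongr

/-- A program whose steps are products (indices in `M`) or integer combinations of weight `w`. -/
def ProgL (m : ℕ) (u : ℕ → ℤ[X]) (M : Finset ℕ) (w : ℕ → ℕ) : Prop :=
  u 0 = 1 ∧ u 1 = X ∧ ∀ k, 2 ≤ k → k ≤ m + 1 →
    if k ∈ M then ∃ i < k, ∃ j < k, u k = u i * u j else
      ∃ c : ℕ → ℤ, ∑ i ∈ Finset.range k, |c i| ≤ 2 ^ w k ∧ u k = ∑ i ∈ Finset.range k, c i • u i

theorem natDegree_lin_le {u : ℕ → ℤ[X]} {k D : ℕ} (c : ℕ → ℤ)
    (h : ∀ i < k, (u i).natDegree ≤ D) : (∑ i ∈ Finset.range k, c i • u i).natDegree ≤ D :=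
  natDegree_sum_le_of_forall_le _ _ fun i hi =>
    (natDegree_smul_le _ _).trans (h i (Finset.mem_range.1 hi))

theorem ProgL.exists_mid {m : ℕ} {u : ℕ → ℤ[X]} {M : Finset ℕ} {w : ℕ → ℕ} (h : ProgL m u M w)
    {z : ℕ} (hz : 3 ≤ z) (hd : z ≤ (u (m + 1)).natDegree) :
    ∃ a ≤ m + 1, z < 3 * (u a).natDegree ∧ 3 * (u a).natDegree ≤ 2 * z := by
  classical
  have hex : ∃ a, z < 3 * (u a).natDegree := ⟨m + 1, by omega⟩
  have h1 := Nat.find_spec hex
  have h2 : Nat.find hex ≤ m + 1 := Nat.find_min' hex (by omega)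
  refine ⟨_, h2, h1, ?_⟩
  by_cases h3 : 2 ≤ Nat.find hex
  · have h4 := h.2.2 _ h3 h2
    have h5 : ∀ i < Nat.find hex, (u i).natDegree ≤ z / 3 := fun i hi => by
      have := Nat.find_min hex hi
      omega
    split_ifs at h4
    · obtain ⟨i, hi, j, hj, hij⟩ := h4
      have a1 := h5 i hi
      have a2 := h5 j hj
      have : (u (Nat.find hex)).natDegree ≤ _ := hij ▸ natDegree_mul_le
      omega
    · obtain ⟨c, -, hc⟩ := h4
      have := natDegree_lin_le c h5
      rw [← hc] at this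
      omega
  · have : Nat.find hex = 0 ∨ Nat.find hex = 1 := by omega
    rcases this with h4 | h4
    · rw [h4, h.1]; simp
    · rw [h4, h.2.1, natDegree_X]; omega

theorem ProgL.height {m : ℕ} {u : ℕ → ℤ[X]} {M : Finset ℕ} {w : ℕ → ℕ} (h : ProgL m u M w)
    (hM : ∀ k ∈ M, 2 ≤ k)
    (hP : ∀ k ≤ m + 1, u k ≠ 0 → ∀ p : Pr, (p.1 : ℤ) ∣ (u k).leadingCoeff → p ∈ P)
    (n : ℕ) (hn : n ≤ m) : ∃ D i₀ C A : ℕ, i₀ < n + 2 ∧ (u i₀).natDegree = D ∧ D ≠ 0 ∧
      (∀ i < n + 2, (u i).natDegree ≤ D) ∧ D ≤ 2 ^ (M.filter (· < n + 2)).card ∧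
      A = ∑ k ∈ Finset.Icc 2 (n + 1) \ M, w k ∧ ∀ N, N ≠ 0 → RB P (fun i => u i ^ N) (n + 2) (N * D)
        (N * N * (A * 2 ^ (M.filter (· < n + 2)).card) + N * C) := by
  induction n with
  | zero =>
    have h0 : M.filter (· < 0 + 2) = ∅ :=
      Finset.filter_eq_empty_iff.2 fun k hk => by have := hM k hk; omega
    refine ⟨1, 1, 1, 0, by omega, by simp [h.2.1], by omega, fun i hi => ?_, by rw [h0]; simp,
      by simp, fun N hN => ?_⟩
    · interval_cases i
      · simp [h.1]
      · simp [h.2.1]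
    · simpa using RB_base (P := P) (V := fun i => u i ^ N) hN (by simp [h.1]) (by simp [h.2.1])
  | succ n ih =>
    obtain ⟨D, i₀, C, A, hi₀, hD, hD0, hdeg, hDle, hA, hRB⟩ := ih (by omega)
    have hst := h.2.2 (n + 2) (by omega) (by omega)
    set μ := (M.filter (· < n + 2)).card with hμ
    have hu0 : u i₀ ≠ 0 := fun h0 => hD0 (by rw [← hD, h0, natDegree_zero])
    have main : ∀ r c : ℕ, 1 ≤ r → (u (n + 2)).natDegree ≤ r * D →
        (∀ (N : ℕ) (K : Type) [NormedField K] (κ : ℝ), Good K κ → ∀ z : K,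
          ‖(toK K (fun i => u i ^ N) (n + 2)).eval z‖ ≤
            κ ^ (c * N) * W (n + 2) (fun i => (toK K (fun i => u i ^ N) i).eval z) ^ r) →
        ∃ D' i₁ : ℕ, i₁ < n + 1 + 2 ∧ (u i₁).natDegree = D' ∧ D' ≠ 0 ∧
          (∀ i < n + 1 + 2, (u i).natDegree ≤ D') ∧ D' ≤ r * D ∧ ∀ N, N ≠ 0 →
          RB P (fun i => u i ^ N) (n + 1 + 2) (N * D') (1 + (n + 2 + 1 + c * N) * (N * D) +
            (2 * (N * D) + (N * N * (A * 2 ^ μ) + N * C)) * r) := by
      intro r c hr hw hz
      obtain ⟨k, hk⟩ : ∃ k, max D (u (n + 2)).natDegree = D + k :=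
        Nat.exists_eq_add_of_le (le_max_left _ _)
      have hrD : D ≤ r * D := Nat.le_mul_of_pos_left _ hr
      obtain ⟨j, hj⟩ : ∃ j, r * D = D + k + j := Nat.exists_eq_add_of_le (by omega)
      have hstep : ∀ N, N ≠ 0 → RB P (fun i => u i ^ N) (n + 1 + 2) (N * (D + k))
          (1 + (n + 2 + 1 + c * N) * (N * D) +
            (2 * (N * D) + (N * N * (A * 2 ^ μ) + N * C)) * r) := by
        intro N hN
        have hcw : k ≠ 0 → (u (n + 2) ^ N).coeff (N * D + N * k) =
            (u (n + 2)).leadingCoeff ^ N ∧ u (n + 2) ≠ 0 := by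
          intro hk0
          have : (u (n + 2)).natDegree = D + k := by omega
          rw [← mul_add, ← this]
          exact ⟨coeff_pow_natDegree _ _, fun h0 => by rw [h0, natDegree_zero] at this; omega⟩
        rw [mul_add N D k]
        refine (hRB N hN).step (k := N * k) (j := N * j) (i₀ := i₀) (fun i hi => ?_) (by omega)
          (by simp [h.1]) hi₀ ?_ (fun p hp => ?_) ?_ ?_ (fun p hp => ?_) ?_ hr (hz N)
        · rw [natDegree_pow]; exact Nat.mul_le_mul_left _ (hdeg i hi)
        · rw [← hD, coeff_pow_natDegree]; exact pow_ne_zero _ (leadingCoeff_ne_zero.2 hu0)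
        · rw [← hD, coeff_pow_natDegree] at hp
          exact hP i₀ (by omega) hu0 p ((Nat.prime_iff_prime_int.1 p.2).dvd_of_dvd_pow hp)
        · rw [natDegree_pow, ← mul_add]; exact Nat.mul_le_mul_left _ (by omega)
        · by_cases hk0 : k = 0
          · simp [hk0]
          · rw [(hcw hk0).1]
            exact pow_ne_zero _ (pow_ne_zero _ (leadingCoeff_ne_zero.2 (hcw hk0).2))
        · have hp' := Nat.prime_iff_prime_int.1 p.2
          by_cases hk0 : k = 0
          · rw [hk0, mul_zero, pow_zero] at hp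
            exact absurd (isUnit_of_dvd_one hp) hp'.not_isUnit
          · rw [(hcw hk0).1] at hp
            exact hP _ (by omega) (hcw hk0).2 p (hp'.dvd_of_dvd_pow (hp'.dvd_of_dvd_pow hp))
        · rw [mul_left_comm, hj]; ring
      have hall : ∀ i < n + 1 + 2, (u i).natDegree ≤ D + k := fun i hi => by
        rcases (Nat.lt_succ_iff.1 hi).lt_or_eq with h1 | rfl
        · exact (hdeg i h1).trans (by omega)
        · exact hk ▸ le_max_right _ _
      by_cases hk0 : k = 0
      · exact ⟨D + k, i₀, by omega, by omega, by omega, hall, by omega, hstep⟩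
      · exact ⟨D + k, n + 2, by omega, by omega, by omega, hall, by omega, hstep⟩
    by_cases hmem : n + 2 ∈ M
    · rw [if_pos hmem] at hst
      obtain ⟨i, hi, j, hj, hij⟩ := hst
      have di := hdeg i hi
      have dj := hdeg j hj
      have hS : Finset.Icc 2 (n + 1 + 1) \ M = Finset.Icc 2 (n + 1) \ M := by
        ext x
        simp only [Finset.mem_sdiff, Finset.mem_Icc]
        constructor
        · rintro ⟨h1, h2⟩
          have : x ≠ n + 2 := fun h3 => h2 (h3 ▸ hmem)
          exact ⟨by omega, h2⟩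
        · rintro ⟨h1, h2⟩
          exact ⟨by omega, h2⟩
      have hc : (M.filter (· < n + 1 + 2)).card = μ + 1 := by
        rw [hμ, ← Finset.card_insert_of_notMem (a := n + 2) (by simp)]
        congr 1
        ext x
        simp only [Finset.mem_filter, Finset.mem_insert]
        constructor
        · rintro ⟨h1, h2⟩
          by_cases h3 : x = n + 2
          · exact Or.inl h3
          · exact Or.inr ⟨h1, by omega⟩
        · rintro (rfl | ⟨h1, h2⟩)
          · exact ⟨hmem, by omega⟩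
          · exact ⟨h1, by omega⟩
      obtain ⟨D', i₁, a1, a2, a3, a4, a5, a6⟩ := main 2 0 (by omega)
        (hij ▸ natDegree_mul_le.trans (by omega)) fun N K _ κ hK z => by
          have b1 := le_W hi fun i => (toK K (fun i => u i ^ N) i).eval z
          have b2 := le_W hj fun i => (toK K (fun i => u i ^ N) i).eval z
          simp only [toK, hij, mul_pow, Polynomial.map_mul, eval_mul, norm_mul, zero_mul, pow_zero,
            one_mul, sq]
          exact mul_le_mul b1 b2 (norm_nonneg _) (W_nonneg _ _)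
      refine ⟨D', i₁, 2 * C + 1 + (n + 7) * D, A, a1, a2, a3, a4, by rw [hc, pow_succ]; omega,
        by rw [hS, hA], fun N hN => (a6 N hN).mono ?_⟩
      rw [hc]
      have : 1 ≤ N := Nat.pos_of_ne_zero hN
      have e : N * N * (A * 2 ^ (μ + 1)) + N * (2 * C + 1 + (n + 7) * D) =
        N + (n + 2 + 1 + 0 * N) * (N * D) +
          (2 * (N * D) + (N * N * (A * 2 ^ μ) + N * C)) * 2 := by ring
      omega
    · rw [if_neg hmem] at hst
      obtain ⟨c, hc1, hc2⟩ := hst
      have hS : Finset.Icc 2 (n + 1 + 1) \ M = insert (n + 2) (Finset.Icc 2 (n + 1) \ M) := by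
        ext x
        simp only [Finset.mem_sdiff, Finset.mem_Icc, Finset.mem_insert]
        constructor
        · rintro ⟨h1, h2⟩
          by_cases h3 : x = n + 2
          · exact Or.inl h3
          · exact Or.inr ⟨by omega, h2⟩
        · rintro (rfl | ⟨h1, h2⟩)
          · exact ⟨by omega, hmem⟩
          · exact ⟨by omega, h2⟩
      have hc : (M.filter (· < n + 1 + 2)).card = μ := by
        rw [hμ]
        congr 1
        ext x
        simp only [Finset.mem_filter]
        constructor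
        · rintro ⟨h1, h2⟩
          have : x ≠ n + 2 := fun h3 => hmem (h3 ▸ h1)
          exact ⟨h1, by omega⟩
        · rintro ⟨h1, h2⟩
          exact ⟨h1, by omega⟩
      obtain ⟨D', i₁, a1, a2, a3, a4, a5, a6⟩ := main 1 (w (n + 2)) le_rfl
        (by rw [hc2, one_mul]; exact natDegree_lin_le c hdeg) fun N K _ κ hK z => by
          have b1 := hK.norm_pow_lin (by omega) hc1
            (fun i => ((u i).map (Int.castRingHom K)).eval z) N
          simp only [toK, Polynomial.map_pow, eval_pow, pow_one]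
          rw [hc2]
          simpa [Polynomial.map_sum, eval_finsetSum] using b1
      refine ⟨D', i₁, C + 1 + (n + 5) * D, A + w (n + 2), a1, a2, a3, a4, by rw [hc]; omega,
        by rw [hS, Finset.sum_insert (by simp), hA, add_comm], fun N hN => (a6 N hN).mono ?_⟩
      rw [hc]
      have h1 : 1 ≤ N := Nat.pos_of_ne_zero hN
      have h2 := Nat.mul_le_mul_left (N * N * w (n + 2)) hDle
      have e : N * N * ((A + w (n + 2)) * 2 ^ μ) + N * (C + 1 + (n + 5) * D) +
          N * N * w (n + 2) * D = N + (n + 2 + 1 + w (n + 2) * N) * (N * D) +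
          (2 * (N * D) + (N * N * (A * 2 ^ μ) + N * C)) * 1 + N * N * w (n + 2) * 2 ^ μ := by ring
      omega

theorem ProgL.zero_fibre {m : ℕ} {u : ℕ → ℤ[X]} {M : Finset ℕ} {w : ℕ → ℕ} (h : ProgL m u M w)
    (hM : ∀ k ∈ M, 2 ≤ k ∧ k ≤ m + 1) (hf : u (m + 1) ≠ 0) (a : ℕ) (ha : a ≤ m + 1) :
    Q ℂ (u a) (u (m + 1)) 0 ≤ 2 ^ ((∑ k ∈ Finset.Icc 2 (m + 1) \ M, w k) * 2 ^ M.card) := by
  classical
  let L : ℕ := (Finset.range (m + 2)).sup fun k => (u k).leadingCoeff.natAbs
  let P : Finset Pr := (Finset.range (L + 1)).subtype Nat.Prime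
  have hP : ∀ k ≤ m + 1, u k ≠ 0 → ∀ p : Pr, (p.1 : ℤ) ∣ (u k).leadingCoeff → p ∈ P := by
    intro k hk h0 p hp
    have h1 : (u k).leadingCoeff ≠ 0 := leadingCoeff_ne_zero.2 h0
    have h2 : p.1 ≤ (u k).leadingCoeff.natAbs :=
      Nat.le_of_dvd (Int.natAbs_pos.2 h1) (Int.natCast_dvd.1 hp)
    have h3 : (u k).leadingCoeff.natAbs ≤ L :=
      Finset.le_sup (f := fun k => (u k).leadingCoeff.natAbs) (Finset.mem_range.2 (by omega))
    exact Finset.mem_subtype.2 (Finset.mem_range.2 (by omega))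
  obtain ⟨D, i₀, C, A, hi₀, hD, hD0, hdeg, -, hA, hRB⟩ :=
    h.height (fun k hk => (hM k hk).1) hP m le_rfl
  have hMf : M.filter (· < m + 2) = M :=
    Finset.filter_true_of_mem fun k hk => by have := (hM k hk).2; omega
  rw [hMf] at hRB
  have hu0 : u i₀ ≠ 0 := fun h0 => hD0 (by rw [← hD, h0, natDegree_zero])
  rw [← hA]
  refine le_of_pow_bound (C := 2 ^ C) (by positivity) (by positivity) fun N hN => ?_
  have h1 := (hRB N hN).final (i₀ := i₀) (a := a) (b := m + 1)
    (fun i hi => by rw [natDegree_pow]; exact Nat.mul_le_mul_left _ (hdeg i hi)) (by omega)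
    (by simp [h.1]) hi₀
    (by rw [← hD, coeff_pow_natDegree]; exact pow_ne_zero _ (leadingCoeff_ne_zero.2 hu0))
    (fun p hp => by
      rw [← hD, coeff_pow_natDegree] at hp
      exact hP i₀ (by omega) hu0 p ((Nat.prime_iff_prime_int.1 p.2).dvd_of_dvd_pow hp))
    (by omega) (by omega) (pow_ne_zero _ hf)
    (fun p hp => by
      rw [leadingCoeff_pow] at hp
      exact hP _ le_rfl hf p ((Nat.prime_iff_prime_int.1 p.2).dvd_of_dvd_pow hp))
  rw [Q_pow_left, Q_pow_right] at h1
  refine h1.trans (le_of_eq ?_)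
  ring

theorem ProgL.card_roots_le {m : ℕ} {u : ℕ → ℤ[X]} {M : Finset ℕ} {w : ℕ → ℕ}
    (h : ProgL m u M w) (hM : ∀ k ∈ M, 2 ≤ k ∧ k ≤ m + 1) (hf : u (m + 1) ≠ 0) :
    2 * ((u (m + 1)).roots.toFinset.card : ℝ) ^ 2 *
      Real.logb 2 ((u (m + 1)).roots.toFinset.card / 24) ≤
        9 * (((∑ k ∈ Finset.Icc 2 (m + 1) \ M, w k) * 2 ^ M.card : ℕ) : ℝ) := by
  set z := (u (m + 1)).roots.toFinset.card with hz
  by_cases h3 : 24 ≤ z
  · have h1 : z ≤ (u (m + 1)).natDegree := (Multiset.toFinset_card_le _).trans (card_roots' _)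
    obtain ⟨a, ha, h4, h5⟩ := h.exists_mid (z := z) (by omega) h1
    exact numericsB h3 h4 h5 ((prod_large (u a) (by omega) _).trans
      ((prod_int_roots_le _ _ hf).trans (h.zero_fibre hM hf a ha)))
  · have h4 : (z : ℝ) / 24 ≤ 1 := by
      have : (z : ℝ) ≤ 24 := by exact_mod_cast (not_le.1 h3).le
      linarith
    have h5 : Real.logb 2 ((z : ℝ) / 24) ≤ 0 := Real.logb_nonpos (by norm_num) (by positivity) h4
    exact (mul_nonpos_of_nonneg_of_nonpos (by positivity) h5).trans (by positivity)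

end Pool.Agent.MP_57f271_lc.H62
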