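import Pool.Agent.MP_57f271_lc.H62.Places

/-! A multiplicative size of polynomials at one place, and choices of good coefficients. -/

open Polynomial

namespace Pool.Agent.MP_57f271_lc.H62

variable {K : Type*} [NormedField K] {κ : ℝ}

/-- Mahler measure, or Gauss norm at an ultrametric place. -/
noncomputable def Mah (g : K[X]) : ℝ :=
  ‖g.leadingCoeff‖ * (g.roots.map fun a => max 1 ‖a‖).prod

theorem Mah_nonneg (g : K[X]) : 0 ≤ Mah g :=
  mul_nonneg (norm_nonneg _) (Multiset.prod_map_nonneg fun _ _ => by positivity)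

theorem Mah_mul (g h : K[X]) : Mah (g * h) = Mah g * Mah h := by
  by_cases h0 : g * h = 0
  · rcases mul_eq_zero.1 h0 with h1 | h1 <;> simp [Mah, h1]
  unfold Mah
  rw [roots_mul h0, leadingCoeff_mul, norm_mul, Multiset.map_add, Multiset.prod_add]
  ring

theorem Mah_C (a : K) : Mah (C a) = ‖a‖ := by simp [Mah]

theorem Mah_pow (g : K[X]) (n : ℕ) : Mah (g ^ n) = Mah g ^ n := by
  induction n with
  | zero => simp [Mah]
  | succ n ih => rw [pow_succ, pow_succ, Mah_mul, ih]

theorem Mah_prod {ι : Type*} (s : Multiset ι) (f : ι → K[X]) :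
    Mah (s.map f).prod = (s.map fun i => Mah (f i)).prod := by
  induction s using Multiset.induction_on with
  | empty => simp [Mah]
  | cons a s ih => simp only [Multiset.map_cons, Multiset.prod_cons, Mah_mul, ih]

theorem Mah_linear (p q : K) : Mah (C p + C q * X) = max ‖p‖ ‖q‖ := by
  by_cases hq : q = 0
  · simp [hq, Mah_C]
  have h : C p + C q * X = C q * (X - C (-(p / q))) := by
    rw [C_neg, sub_neg_eq_add, mul_add, ← C_mul, mul_div_cancel₀ _ hq, add_comm]
  have hq' : 0 < ‖q‖ := norm_pos_iff.2 hq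
  rw [h, Mah_mul, Mah_C, Mah, roots_X_sub_C, leadingCoeff_X_sub_C]
  simp only [norm_one, Multiset.map_singleton, Multiset.prod_singleton, norm_neg, norm_div, one_mul]
  rw [mul_max_of_nonneg _ _ hq'.le, mul_one, mul_div_cancel₀ _ hq'.ne', max_comm]

theorem norm_eval_eq [IsAlgClosed K] (g : K[X]) (ζ : K) :
    ‖g.eval ζ‖ = ‖g.leadingCoeff‖ * (g.roots.map fun a => ‖a - ζ‖).prod := by
  conv_lhs => rw [(IsAlgClosed.splits g).eq_prod_roots]
  rw [eval_mul, eval_C, norm_mul, norm_eval_prod]

theorem eval_zero_le_Mah [IsAlgClosed K] (g : K[X]) : ‖g.eval 0‖ ≤ Mah g := by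
  rw [norm_eval_eq]
  refine mul_le_mul_of_nonneg_left ?_ (norm_nonneg _)
  exact Multiset.prod_map_le_prod_map₀ _ _ (fun _ _ => norm_nonneg _) fun a _ => by simp

theorem Good.exists_eval [IsAlgClosed K] (hK : Good K κ) (g : K[X]) :
    ∃ ζ : K, ‖ζ‖ ≤ 1 ∧ Mah g ≤ ‖g.eval ζ‖ := by
  obtain ⟨ζ, hζ, h⟩ := hK.pick g.roots
  exact ⟨ζ, hζ, by rw [norm_eval_eq]; exact mul_le_mul_of_nonneg_left h (norm_nonneg _)⟩

theorem Good.norm_add (hK : Good K κ) (a b : K) : ‖a + b‖ ≤ κ * max ‖a‖ ‖b‖ := by
  wlog h : ‖b‖ ≤ ‖a‖ generalizing a b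
  · rw [add_comm, max_comm]; exact this b a (not_le.1 h).le
  rw [max_eq_left h]
  by_cases ha : a = 0
  · subst ha
    have : b = 0 := by simpa using h
    simp [this]
  have ha' : 0 < ‖a‖ := norm_pos_iff.2 ha
  have h1 := hK.add 1 (b / a)
  have h2 : ‖b / a‖ ≤ 1 := by rw [norm_div, div_le_one ha']; exact h
  rw [norm_one, max_self, max_eq_left h2, mul_one, mul_one] at h1
  have h3 : a + b = (1 + b / a) * a := by field_simp
  rw [h3, norm_mul]
  exact mul_le_mul_of_nonneg_right ((le_max_right _ _).trans h1) ha'.le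

theorem Good.norm_add_le (hK : Good K κ) {a b : K} {B : ℝ} (ha : ‖a‖ ≤ B) (hb : ‖b‖ ≤ B) :
    ‖a + b‖ ≤ κ * B :=
  (hK.norm_add a b).trans (mul_le_mul_of_nonneg_left (max_le ha hb) (zero_le_one.trans hK.one_le))

theorem Good.norm_sum_le (hK : Good K κ) (y : ℕ → K) {B : ℝ} (hB : 0 ≤ B) (n : ℕ)
    (h : ∀ i < n, ‖y i‖ ≤ B) : ‖∑ i ∈ Finset.range n, y i‖ ≤ κ ^ n * B := by
  induction n with
  | zero => simpa using hB
  | succ n ih =>
    rw [Finset.sum_range_succ, pow_succ', mul_assoc]
    refine hK.norm_add_le (ih fun i hi => h i (by omega)) ((h n (by omega)).trans ?_)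
    exact le_mul_of_one_le_left hB (one_le_pow₀ hK.one_le)

/-- The largest norm among the first `n` coordinates. -/
noncomputable def W (n : ℕ) (x : ℕ → K) : ℝ := ((Finset.range n).sup fun i => ‖x i‖₊ : NNReal)

theorem W_nonneg (n : ℕ) (x : ℕ → K) : 0 ≤ W n x := NNReal.coe_nonneg _

theorem le_W {n i : ℕ} (hi : i < n) (x : ℕ → K) : ‖x i‖ ≤ W n x := by
  have := Finset.le_sup (f := fun i => ‖x i‖₊) (Finset.mem_range.2 hi)
  exact_mod_cast this

theorem W_succ (n : ℕ) (x : ℕ → K) : W (n + 1) x = max ‖x n‖ (W n x) := by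
  unfold W
  rw [Finset.range_add_one, Finset.sup_insert]
  simp

theorem Good.pick_vec [IsAlgClosed K] (hK : Good K κ) (n : ℕ) (s : Multiset (ℕ → K)) :
    ∃ α : ℕ → K, (∀ i, ‖α i‖ ≤ 1) ∧
      (s.map (W n)).prod ≤ (s.map fun x => ‖∑ i ∈ Finset.range n, α i * x i‖).prod := by
  classical
  induction n generalizing s with
  | zero => exact ⟨fun _ => 0, by simp, le_of_eq (by simp [W])⟩
  | succ n ih =>
    obtain ⟨α, hα, h⟩ := ih (s.filter fun x => ‖x n‖ ≤ W n x)
    obtain ⟨ζ, hζ, h2⟩ := hK.exists_eval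
      (s.map fun x => C (∑ i ∈ Finset.range n, α i * x i) + C (x n) * X).prod
    refine ⟨Function.update α n ζ, fun i => ?_, ?_⟩
    · rw [Function.update_apply]; split_ifs
      · exact hζ
      · exact hα i
    have e1 : ∀ x : ℕ → K, ∑ i ∈ Finset.range (n + 1), Function.update α n ζ i * x i =
        ∑ i ∈ Finset.range n, α i * x i + x n * ζ := by
      intro x
      rw [Finset.sum_range_succ, Function.update_self, mul_comm ζ]
      congr 1
      refine Finset.sum_congr rfl fun i hi => ?_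
      rw [Function.update_of_ne (Finset.mem_range.1 hi).ne]
    have e2 : ‖eval ζ (s.map fun x =>
        C (∑ i ∈ Finset.range n, α i * x i) + C (x n) * X).prod‖ =
        (s.map fun x => ‖∑ i ∈ Finset.range n, α i * x i + x n * ζ‖).prod := by
      have := map_multiset_prod (normHom (α := K))
        (s.map fun x => ∑ i ∈ Finset.range n, α i * x i + x n * ζ)
      rw [eval_multiset_prod, Multiset.map_map]
      simpa [Multiset.map_map, -map_sum] using this
    simp only [e1]
    rw [e2, Mah_prod] at h2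
    simp only [Mah_linear] at h2
    refine le_trans ?_ h2
    rw [← Multiset.filter_add_not (fun x => ‖x n‖ ≤ W n x) s, Multiset.map_add, Multiset.map_add,
      Multiset.prod_add, Multiset.prod_add]
    refine mul_le_mul ?_ ?_ (Multiset.prod_map_nonneg fun _ _ => W_nonneg _ _)
      (Multiset.prod_map_nonneg fun _ _ => by positivity)
    · refine le_trans (le_of_eq ?_) (h.trans ?_)
      · congr 1
        refine Multiset.map_congr rfl fun x hx => ?_
        rw [W_succ, max_eq_right (Multiset.mem_filter.1 hx).2]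
      · exact Multiset.prod_map_le_prod_map₀ _ _ (fun _ _ => norm_nonneg _)
          fun _ _ => le_max_left _ _
    · refine Multiset.prod_map_le_prod_map₀ _ _ (fun _ _ => W_nonneg _ _) fun x hx => ?_
      rw [W_succ, max_eq_left (not_le.1 (Multiset.mem_filter.1 hx).2).le]
      exact le_max_right _ _

end Pool.Agent.MP_57f271_lc.H62
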