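import Mathlib

/-! Local fibre products of two integer polynomials at one place. -/

open Polynomial

namespace Pool.Agent.MP_57f271_lc.H62

/-- The product of `max 1 |u z|` over the fibre `y z = η`, with multiplicity. -/
noncomputable def Q (K : Type*) [NormedField K] (u y : ℤ[X]) (η : K) : ℝ :=
  ((y.map (Int.castRingHom K) - C η).roots.map fun z => max 1 ‖aeval z u‖).prod

/-- The two properties of a place that are used. -/
structure Good (K : Type*) [NormedField K] (κ : ℝ) : Prop where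
  one_le : 1 ≤ κ
  add : ∀ a b : K, max 1 ‖a + b‖ ≤ κ * (max 1 ‖a‖ * max 1 ‖b‖)
  pick : ∀ s : Multiset K, ∃ ζ : K, ‖ζ‖ ≤ 1 ∧
    (s.map fun a => max 1 ‖a‖).prod ≤ (s.map fun a => ‖a - ζ‖).prod

variable {K : Type*} [NormedField K] {κ : ℝ}

theorem one_le_Q (u y : ℤ[X]) (η : K) : 1 ≤ Q K u y η :=
  Multiset.one_le_prod_map fun _ _ => le_max_left _ _

theorem card_fibre_le (y : ℤ[X]) (η : K) :
    (y.map (Int.castRingHom K) - C η).roots.card ≤ y.natDegree := by
  refine (card_roots' _).trans ?_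
  rw [natDegree_sub_C]
  exact natDegree_map_le

theorem max_mul_le (a b : K) : max 1 ‖a * b‖ ≤ max 1 ‖a‖ * max 1 ‖b‖ := by
  have h1 : (1 : ℝ) ≤ max 1 ‖a‖ := le_max_left _ _
  have h2 : (1 : ℝ) ≤ max 1 ‖b‖ := le_max_left _ _
  refine max_le (by nlinarith) ?_
  rw [norm_mul]
  exact mul_le_mul (le_max_right _ _) (le_max_right _ _) (norm_nonneg _) (by linarith)

theorem Q_op (hK : Good K κ) {u v w : ℤ[X]} (h : u = v + w ∨ u = v - w ∨ u = v * w)
    (y : ℤ[X]) (η : K) : Q K u y η ≤ κ ^ y.natDegree * (Q K v y η * Q K w y η) := by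
  have hκ := hK.one_le
  have key : ∀ z : K, max 1 ‖aeval z u‖ ≤ κ * (max 1 ‖aeval z v‖ * max 1 ‖aeval z w‖) := by
    intro z
    rcases h with rfl | rfl | rfl
    · rw [map_add]; exact hK.add _ _
    · rw [map_sub, sub_eq_add_neg]
      simpa using hK.add (aeval z v) (-aeval z w)
    · rw [map_mul]
      refine (max_mul_le _ _).trans (le_mul_of_one_le_left (by positivity) hκ)
  unfold Q
  refine (Multiset.prod_map_le_prod_map₀ _ _ (fun _ _ => by positivity)
    (fun z _ => key z)).trans ?_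
  rw [Multiset.prod_map_mul, Multiset.prod_map_mul, Multiset.map_const', Multiset.prod_replicate]
  refine mul_le_mul_of_nonneg_right (pow_le_pow_right₀ hκ (card_fibre_le y η)) ?_
  exact mul_nonneg (Multiset.prod_map_nonneg fun _ _ => by positivity)
    (Multiset.prod_map_nonneg fun _ _ => by positivity)

theorem Q_self (u : ℤ[X]) {η : K} (hη : ‖η‖ ≤ 1) : Q K u u η = 1 := by
  unfold Q
  refine Multiset.prod_eq_one fun x hx => ?_
  obtain ⟨z, hz, rfl⟩ := Multiset.mem_map.1 hx
  have h := isRoot_of_mem_roots hz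
  rw [IsRoot, eval_sub, eval_C, sub_eq_zero] at h
  have h2 : aeval z u = η := by
    rw [← h, aeval_def, eval₂_eq_eval_map]; rfl
  rw [h2]; exact max_eq_left hη

theorem Q_const_right (u : ℤ[X]) {y : ℤ[X]} (hy : y.natDegree = 0) (η : K) : Q K u y η = 1 := by
  have h := card_fibre_le y η
  rw [hy, Nat.le_zero, Multiset.card_eq_zero] at h
  simp [Q, h]

variable [CharZero K] [IsAlgClosed K]

theorem card_fibre (y : ℤ[X]) (η : K) :
    (y.map (Int.castRingHom K) - C η).roots.card = y.natDegree := by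
  rw [IsAlgClosed.card_roots_eq_natDegree, natDegree_sub_C,
    natDegree_map_eq_of_injective (RingHom.injective_int _)]

theorem Q_const_left {c : ℤ[X]} (hc : c.natDegree = 0) (y : ℤ[X]) (η : K) :
    Q K c y η = max 1 ‖((c.coeff 0 : ℤ) : K)‖ ^ y.natDegree := by
  unfold Q
  rw [← card_fibre y η, ← Multiset.prod_replicate, ← Multiset.map_const']
  congr 1
  refine Multiset.map_congr rfl fun z _ => ?_
  conv_lhs => rw [eq_C_of_natDegree_eq_zero hc]
  simp

omit [IsAlgClosed K] in
theorem lead_fibre {y : ℤ[X]} (hy : y.natDegree ≠ 0) (η : K) :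
    (y.map (Int.castRingHom K) - C η).leadingCoeff = ((y.leadingCoeff : ℤ) : K) := by
  have hd : (y.map (Int.castRingHom K)).natDegree = y.natDegree :=
    natDegree_map_eq_of_injective (RingHom.injective_int _) _
  rw [leadingCoeff, natDegree_sub_C, hd, coeff_sub, coeff_C, if_neg hy, sub_zero, coeff_map]
  rfl

theorem norm_fibre {y : ℤ[X]} (hy : y.natDegree ≠ 0) (η z : K) :
    ‖aeval z y - η‖ = ‖((y.leadingCoeff : ℤ) : K)‖ *
      ((y.map (Int.castRingHom K) - C η).roots.map fun w => ‖z - w‖).prod := by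
  have h := (IsAlgClosed.splits (y.map (Int.castRingHom K) - C η)).eval_eq_prod_roots z
  rw [lead_fibre hy, eval_sub, eval_C] at h
  have h2 : aeval z y = eval z (y.map (Int.castRingHom K)) := by
    rw [aeval_def, eval₂_eq_eval_map]; rfl
  rw [h2, h, norm_mul]
  congr 1
  have := map_multiset_prod (normHom (α := K))
    ((y.map (Int.castRingHom K) - C η).roots.map fun w => z - w)
  simpa [Multiset.map_map] using this

/-- Reciprocity at one place. -/
theorem Q_recip (hK : Good K κ) {u y : ℤ[X]} (hu : u.natDegree ≠ 0) (hy : y.natDegree ≠ 0)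
    {η : K} (hη : ‖η‖ ≤ 1) : ∃ ζ : K, ‖ζ‖ ≤ 1 ∧
      ‖((y.leadingCoeff : ℤ) : K)‖ ^ u.natDegree * Q K u y η ≤
        κ ^ u.natDegree * ‖((u.leadingCoeff : ℤ) : K)‖ ^ y.natDegree * Q K y u ζ := by
  obtain ⟨ζ, hζ, h⟩ := hK.pick
    ((y.map (Int.castRingHom K) - C η).roots.map fun z => aeval z u)
  refine ⟨ζ, hζ, ?_⟩
  rw [Multiset.map_map, Multiset.map_map] at h
  set Z := (y.map (Int.castRingHom K) - C η).roots with hZ
  set W := (u.map (Int.castRingHom K) - C ζ).roots with hW
  have e1 : (Z.map ((fun a => ‖a - ζ‖) ∘ fun z => aeval z u)).prod =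
      ‖((u.leadingCoeff : ℤ) : K)‖ ^ y.natDegree *
        (Z.map fun z => (W.map fun w => ‖z - w‖).prod).prod := by
    rw [← card_fibre y η, ← hZ, ← Multiset.prod_replicate, ← Multiset.map_const',
      ← Multiset.prod_map_mul]
    congr 1
    exact Multiset.map_congr rfl fun z _ => norm_fibre hu ζ z
  have e2 : (W.map fun w => ‖aeval w y - η‖).prod =
      ‖((y.leadingCoeff : ℤ) : K)‖ ^ u.natDegree *
        (Z.map fun z => (W.map fun w => ‖z - w‖).prod).prod := by
    rw [Multiset.prod_map_prod_map, ← card_fibre u ζ, ← hW, ← Multiset.prod_replicate,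
      ← Multiset.map_const', ← Multiset.prod_map_mul]
    congr 1
    refine Multiset.map_congr rfl fun w _ => ?_
    rw [norm_fibre hy η w]
    simp only [norm_sub_rev w, hZ]
  have e3 : (W.map fun w => ‖aeval w y - η‖).prod ≤ κ ^ u.natDegree * Q K y u ζ := by
    unfold Q
    rw [← card_fibre u ζ, ← hW, ← Multiset.prod_replicate, ← Multiset.map_const',
      ← Multiset.prod_map_mul]
    refine Multiset.prod_map_le_prod_map₀ _ _ (fun _ _ => norm_nonneg _) fun w _ => ?_
    have := hK.add (aeval w y) (-η)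
    rw [norm_neg, max_eq_left hη, mul_one, ← sub_eq_add_neg] at this
    exact (le_max_right _ _).trans this
  have h' : Q K u y η ≤ ‖((u.leadingCoeff : ℤ) : K)‖ ^ y.natDegree *
        (Z.map fun z => (W.map fun w => ‖z - w‖).prod).prod := e1 ▸ h
  calc _ ≤ ‖((y.leadingCoeff : ℤ) : K)‖ ^ u.natDegree *
        (‖((u.leadingCoeff : ℤ) : K)‖ ^ y.natDegree *
          (Z.map fun z => (W.map fun w => ‖z - w‖).prod).prod) :=
        mul_le_mul_of_nonneg_left h' (by positivity)
    _ = ‖((u.leadingCoeff : ℤ) : K)‖ ^ y.natDegree * (W.map fun w => ‖aeval w y - η‖).prod := by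
        rw [e2]; ring
    _ ≤ ‖((u.leadingCoeff : ℤ) : K)‖ ^ y.natDegree * (κ ^ u.natDegree * Q K y u ζ) :=
        mul_le_mul_of_nonneg_left e3 (by positivity)
    _ = _ := by ring

end Pool.Agent.MP_57f271_lc.H62
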