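import Pool.Agent.MP_57f271_lc.H62.Pair

/-! The complex place, the p-adic places and the product formula for integers. -/

open Polynomial

namespace Pool.Agent.MP_57f271_lc.H62

open Real Filter MeasureTheory Set in
theorem mahler_le_of_circle (p : ℂ[X]) (hp : p ≠ 0) {B : ℝ} (hB : 0 < B)
    (h : ∀ z : ℂ, ‖z‖ = 1 → ‖p.eval z‖ ≤ B) : p.mahlerMeasure ≤ B := by
  rw [show B = rexp (circleAverage (fun _ ↦ log B) 0 1)
    by simp [circleAverage_def, mul_assoc, exp_log hB], mahlerMeasure_def_of_ne_zero hp,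
    circleAverage_def, smul_eq_mul]
  gcongr
  apply intervalIntegral.integral_mono_ae_restrict (by positivity)
    p.intervalIntegrable_mahlerMeasure (by simp)
  rw [EventuallyLE, eventually_iff_exists_mem]
  use {x : ℝ | eval (circleMap 0 1 x) p ≠ 0}
  constructor
  · rw [mem_ae_iff, compl_def, Measure.restrict_apply' (by simp)]
    apply (Finite.of_sdiff _ <| finite_singleton (2 * π)).measure_zero
    simp only [ne_eq, mem_ofPred_eq, Decidable.not_not, inter_sdiff_assoc, Icc_sdiff_right]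
    rw [ofPred_inter_eq_sep]
    apply Finite.of_finite_image (f := circleMap 0 1) ((Multiset.finite_toSet p.roots).subset _)
      <| fun _ h _ k l ↦ injOn_circleMap_of_abs_sub_le' one_ne_zero (by linarith) h.1 k.1 l
    simp [hp]
  · intro x hx
    exact log_le_log (norm_pos_iff.2 hx) (h _ (by simp))

theorem norm_eval_prod {K : Type*} [NormedField K] (s : Multiset K) (ζ : K) :
    ‖((s.map fun a => X - C a).prod).eval ζ‖ = (s.map fun a => ‖a - ζ‖).prod := by
  induction s using Multiset.induction_on with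
  | empty => simp
  | cons a s ih => simp only [Multiset.map_cons, Multiset.prod_cons, eval_mul, norm_mul, ih,
      eval_sub, eval_X, eval_C, norm_sub_rev ζ a]

theorem good_complex : Good ℂ 2 where
  one_le := by norm_num
  add a b := by
    have h1 : (1 : ℝ) ≤ max 1 ‖a‖ := le_max_left _ _
    have h2 : (1 : ℝ) ≤ max 1 ‖b‖ := le_max_left _ _
    have h3 : ‖a‖ ≤ max 1 ‖a‖ := le_max_right _ _
    have h4 : ‖b‖ ≤ max 1 ‖b‖ := le_max_right _ _
    refine max_le (by nlinarith) ((norm_add_le _ _).trans (by nlinarith))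
  pick s := by
    set p : ℂ[X] := (s.map fun a => X - C a).prod with hp
    have hm : p.Monic := monic_multiset_prod_of_monic _ _ fun a _ => monic_X_sub_C a
    obtain ⟨ζ, hζ, hmax⟩ := (isCompact_sphere (0 : ℂ) 1).exists_isMaxOn
      (f := fun z => ‖p.eval z‖) ⟨1, by simp⟩ (p.continuous.norm.continuousOn)
    have hζ1 : ‖ζ‖ = 1 := by simpa using hζ
    refine ⟨ζ, hζ1.le, ?_⟩
    rw [← norm_eval_prod, ← hp]
    have hM := p.mahlerMeasure_eq_leadingCoeff_mul_prod_roots
    rw [hm.leadingCoeff, norm_one, one_mul, hp, roots_multiset_prod_X_sub_C, ← hp] at hM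
    rw [← hM]
    refine le_of_forall_pos_le_add fun ε hε => ?_
    refine mahler_le_of_circle p hm.ne_zero (by positivity) fun z hz => ?_
    exact (hmax (by simpa using hz)).trans (by simp [hε.le])

theorem good_ultra (K : Type*) [NormedField K] [IsUltrametricDist K] [IsAlgClosed K] :
    Good K 1 where
  one_le := le_rfl
  add a b := by
    have h1 : (1 : ℝ) ≤ max 1 ‖a‖ := le_max_left _ _
    have h2 : (1 : ℝ) ≤ max 1 ‖b‖ := le_max_left _ _
    have h3 : ‖a‖ ≤ max 1 ‖a‖ := le_max_right _ _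
    have h4 : ‖b‖ ≤ max 1 ‖b‖ := le_max_right _ _
    refine max_le (by nlinarith) ((IsUltrametricDist.norm_add_le_max a b).trans
      (max_le (by nlinarith) (by nlinarith)))
  pick s := by
    classical
    have hsub : ∀ a ζ : K, ‖ζ‖ < ‖a‖ → ‖a - ζ‖ = ‖a‖ := by
      intro a ζ h
      rw [sub_eq_add_neg, IsUltrametricDist.norm_add_eq_max_of_norm_ne_norm (by
        rw [norm_neg]; exact h.ne'), norm_neg, max_eq_left h.le]
    set t := s.filter fun a => ‖a‖ ≤ 1 with ht
    obtain ⟨ζ, hζ, h1⟩ : ∃ ζ : K, ‖ζ‖ ≤ 1 ∧ (t.map fun a => ‖a - ζ‖).prod = 1 := by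
      by_cases h0 : t = 0
      · exact ⟨0, by simp, by simp [h0]⟩
      set p : K[X] := (t.map fun a => X - C a).prod with hp
      have hd : (p - C 1).degree ≠ 0 := by
        have : (p - C 1).natDegree ≠ 0 := by
          rw [natDegree_sub_C, hp, natDegree_multiset_prod_X_sub_C_eq_card]
          simpa using h0
        intro h
        exact this (natDegree_eq_zero_iff_degree_le_zero.2 h.le)
      obtain ⟨ζ, hζ⟩ := IsAlgClosed.exists_root _ hd
      rw [IsRoot, eval_sub, eval_C, sub_eq_zero] at hζ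
      have h1 : (t.map fun a => ‖a - ζ‖).prod = 1 := by
        rw [← norm_eval_prod, ← hp, hζ, norm_one]
      refine ⟨ζ, ?_, h1⟩
      by_contra hlt
      push Not at hlt
      have h2 : (t.map fun a => ‖a - ζ‖).prod = ‖ζ‖ ^ t.card := by
        rw [← Multiset.prod_replicate, ← Multiset.map_const']
        congr 1
        refine Multiset.map_congr rfl fun a ha => ?_
        rw [norm_sub_rev]
        exact hsub _ _ ((Multiset.mem_filter.1 ha).2.trans_lt hlt)
      rw [h2] at h1
      exact (one_lt_pow₀ hlt (by simpa using h0)).ne' h1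
    refine ⟨ζ, hζ, le_of_eq ?_⟩
    rw [← Multiset.filter_add_not (fun a => ‖a‖ ≤ 1) s, Multiset.map_add, Multiset.map_add,
      Multiset.prod_add, Multiset.prod_add, ← ht, h1]
    congr 1
    · refine Multiset.prod_eq_one fun x hx => ?_
      obtain ⟨a, ha, rfl⟩ := Multiset.mem_map.1 hx
      exact max_eq_left (Multiset.mem_filter.1 ha).2
    · congr 1
      refine Multiset.map_congr rfl fun a ha => ?_
      have h := not_le.1 (Multiset.mem_filter.1 ha).2
      rw [max_eq_right h.le, hsub _ _ (hζ.trans_lt h)]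

/-- Prime numbers. -/
abbrev Pr := {p : ℕ // p.Prime}

instance factPrimes (p : Pr) : Fact p.1.Prime := ⟨p.2⟩

theorem norm_natCast_padic (p : Pr) (n : ℕ) :
    ‖(n : PadicAlgCl p.1)‖ = ‖(n : ℚ_[p.1])‖ := by
  rw [← PadicAlgCl.norm_extends]; simp

theorem prod_formula_nat (P : Finset Pr) (n : ℕ) (hn : n ≠ 0)
    (hP : ∀ p : Pr, p.1 ∣ n → p ∈ P) :
    (n : ℝ) * ∏ p ∈ P, ‖(n : PadicAlgCl p.1)‖ = 1 := by
  induction n using induction_on_primes with
  | zero => exact absurd rfl hn
  | one => simp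
  | prime_mul q a hq ih =>
    have ha : a ≠ 0 := fun h => hn (by simp [h])
    have ih' := ih ha fun p hp => hP p (hp.mul_left _)
    have hqP : (⟨q, hq⟩ : Pr) ∈ P := hP ⟨q, hq⟩ (dvd_mul_right _ _)
    have hq1 : (q : ℝ) * ∏ p ∈ P, ‖(q : PadicAlgCl p.1)‖ = 1 := by
      rw [Finset.prod_eq_single_of_mem _ hqP]
      · have : Fact q.Prime := ⟨hq⟩
        rw [norm_natCast_padic, Padic.norm_p]
        exact mul_inv_cancel₀ (by exact_mod_cast hq.ne_zero)
      · intro p _ hpq
        rw [norm_natCast_padic]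
        refine Padic.norm_natCast_eq_one_iff.2 ?_
        exact (Nat.coprime_primes p.2 hq).2 fun h => hpq (Subtype.ext h)
    simp only [Nat.cast_mul, norm_mul, Finset.prod_mul_distrib]
    calc _ = ((q : ℝ) * ∏ p ∈ P, ‖(q : PadicAlgCl p.1)‖) *
        ((a : ℝ) * ∏ p ∈ P, ‖(a : PadicAlgCl p.1)‖) := by ring
      _ = 1 := by rw [hq1, ih', one_mul]

theorem prod_formula (P : Finset Pr) (a : ℤ) (ha : a ≠ 0)
    (hP : ∀ p : Pr, (p.1 : ℤ) ∣ a → p ∈ P) :
    ‖(a : ℂ)‖ * ∏ p ∈ P, ‖(a : PadicAlgCl p.1)‖ = 1 := by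
  have h := prod_formula_nat P a.natAbs (Int.natAbs_ne_zero.2 ha)
    fun p hp => hP p (Int.natCast_dvd.2 hp)
  rcases Int.natAbs_eq a with h1 | h1
  · rw [h1]; simpa using h
  · rw [h1]; simpa using h

end Pool.Agent.MP_57f271_lc.H62
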